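import Pool.Agent.H816Z.Defs

set_option autoImplicit false

open Topology Filter
open scoped Manifold ContDiff

namespace Pool.Agent.H816Z

/-- finite presentability, as in the frozen statement -/
def FP (Γ : Type) [Group Γ] : Prop :=
  ∃ (k : ℕ) (φ : FreeGroup (Fin k) →* Γ) (R : Finset (FreeGroup (Fin k))),
    Function.Surjective φ ∧ φ.ker = Subgroup.normalClosure (↑R : Set (FreeGroup (Fin k)))

/-- the facts about the Baumslag group that are used -/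
structure BFacts (Γ : Type) [Group Γ] (a s t : Γ) (π : Γ →* Multiplicative (ℤ × ℤ))
    (ψ₀ : Γ →* Γ) : Prop where
  πs : π s = Multiplicative.ofAdd (1, 0)
  πt : π t = Multiplicative.ofAdd (0, 1)
  πa : π a = 1
  comm : ∀ b ∈ π.ker, ∀ b' ∈ π.ker, b * b' = b' * b
  sq : ∀ b ∈ π.ker, b * b = 1
  rel : s * a * s⁻¹ = a * (t * a * t⁻¹)
  st : s * t = t * s
  gen : ∀ b ∈ π.ker, ∃ m : ℕ, s ^ m * b * (s ^ m)⁻¹ ∈
    Subgroup.closure (Set.range fun j : ℤ => t ^ j * a * (t ^ j)⁻¹)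
  inj : Function.Injective ψ₀
  ψs : ψ₀ s = s
  ψt : ψ₀ t = t
  idx : 1 < ψ₀.range.index
  cube : ∀ g : Γ, ∀ b ∈ π.ker, g ^ 3 * b * (g ^ 3)⁻¹ * b⁻¹ ∈ ψ₀.range

def S_G1 : Prop :=
  ∃ (Γ : Type) (_ : Group Γ) (a s t : Γ) (π : Γ →* Multiplicative (ℤ × ℤ)) (ψ₀ : Γ →* Γ),
    FP Γ ∧ BFacts Γ a s t π ψ₀

def S_G2 : Prop :=
  ∀ (Γ : Type) [Group Γ] (a s t : Γ) (π : Γ →* Multiplicative (ℤ × ℤ)) (ψ₀ : Γ →* Γ),
    BFacts Γ a s t π ψ₀ → ∀ ψ : Γ →* Γ, Function.Injective ψ → ψ.range = ψ₀.range →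
    ∀ r₀ : ℕ, ∃ (H : Subgroup Γ) (k r : ℕ) (θ : H →* Multiplicative (Fin r → ZMod 2))
      (T : Finset H), r₀ ≤ r ∧ Function.Surjective θ ∧
      (∀ h : H, θ h = 1 ↔ ∃ h' ∈ H, (⇑ψ)^[k] h' = (h : Γ)) ∧
      (∀ h ∈ H, (⇑ψ)^[k] h ∈ H) ∧
      H.index ≠ 0 ∧ H.index ≤ 9 * r ^ 2 ∧ T.card ≤ 3 * r + 2 ∧
      ∀ χ : H →* Multiplicative (ZMod 2), (∀ x ∈ T, χ x = 1) → χ = 1

/-- the Koszul differential on functions of a monomial and a point -/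
def kos (r : ℕ) (w : (Fin r → ℕ) → (Fin r → ZMod 2) → ZMod 2) :
    (Fin r → ℕ) → (Fin r → ZMod 2) → ZMod 2 :=
  fun m p => ∑ i : Fin r, if 0 < m i then
    w (m - Pi.single i 1) (p + Pi.single i 1) + w (m - Pi.single i 1) p else 0

/-- `w` is supported on monomials of degree `j` -/
def deg (r j : ℕ) (w : (Fin r → ℕ) → (Fin r → ZMod 2) → ZMod 2) : Prop :=
  ∀ m, ∑ i, m i ≠ j → w m = 0

def S_KOS : Prop :=
  ∀ r : ℕ,
    (∀ w, kos r (kos r w) = 0) ∧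
    (∀ j w, deg r j w → deg r (j + 1) (kos r w)) ∧
    (∀ j w, deg r (j + 1) w → kos r w = 0 → ∃ u, deg r j u ∧ kos r u = w) ∧
    (∀ w, deg r 0 w → kos r w = 0 → ∀ m p, w m p = w m 0) ∧
    (∀ j, (Finset.piAntidiag (Finset.univ : Finset (Fin r)) j).card ≤ r ^ j) ∧
    (∀ j, r.choose j ≤ (Finset.piAntidiag (Finset.univ : Finset (Fin r)) j).card)

def S_T2 : Prop :=
  ∀ (n : ℕ) (M : Type) [TopologicalSpace M] [ChartedSpace (EuclideanSpace ℝ (Fin n)) M]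
    [IsManifold (𝓡 n) ∞ M] [CompactSpace M] [ConnectedSpace M] [T2Space M],
    PathConnectedSpace M ∧
    (∃ (N : ℕ) (φ : M → Fin N → ℝ), Continuous φ ∧ Function.Injective φ) ∧
    ∀ (x₀ z : M) (W : Set M), W ∈ 𝓝 z → ∃ U ⊆ W, (pathSys x₀).Good U ∧
      ∃ D ∈ 𝓝 z, D ⊆ U ∧ IsCompact D ∧ ∃ φ : M → Fin n → ℝ,
        ContinuousOn φ D ∧ Set.InjOn φ D ∧ Convex ℝ (φ '' D)

def S_T4 : Prop :=
  ∀ (M : Type) [TopologicalSpace M] (x₀ : M) (V : Type) (w : PE x₀ → V),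
    (∀ z : M, ∃ U ∈ 𝓝 z, ∀ a b, (pathSys x₀).R U a b → w a = w b) → ∀ a b, w a = w b

def S_T5 : Prop :=
  ∀ (M : Type) [TopologicalSpace M] [PathConnectedSpace M] (x₀ : M),
    (∀ (z : M) (W : Set M), W ∈ 𝓝 z → ∃ U ⊆ W, z ∈ U ∧ (pathSys x₀).Good U) →
    ∀ (c : PE x₀ → PE x₀ → ZMod 2),
      (∀ z : M, ∃ U ∈ 𝓝 z, ∀ a b d, (pathSys x₀).R U a b → (pathSys x₀).R U b d →
        c a b + c b d = c a d) →
      ∃ h : PE x₀ → ZMod 2, ∀ z : M, ∃ U ∈ 𝓝 z, ∀ a b, (pathSys x₀).R U a b →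
        h b = h a + c a b

def S_T6 : Prop :=
  ∀ (M : Type) [TopologicalSpace M] [CompactSpace M] [T2Space M] [PathConnectedSpace M]
    (f : C(M, M)), IsCoveringMap f → ∀ x : M,
    ∃ (Φ : PE (f x) ≃ PE (f x))
      (ψ : FundamentalGroup M (f x) →* FundamentalGroup M (f x)),
      (∀ g a, Φ (g • a) = ψ g • Φ a) ∧ ψ.range = (FundamentalGroup.map f x).range ∧
      ∀ (n : ℕ) (c : List (PE (f x)) → ZMod 2),
        (pathSys (f x)).Null Set.univ n c ↔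
          (pathSys (f x)).Null Set.univ n (fun l => c (l.map Φ))

end Pool.Agent.H816Z
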