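import Pool.Agent.H816Z.Defs

set_option autoImplicit false

open Topology Filter Module

namespace Pool.Agent.H816Z

/-- the image of `S` in the quotient by `B` has dimension at most `m` -/
def Le {F : Type} [AddCommGroup F] [Module K2 F] (S B : Submodule K2 F) (m : ℕ) : Prop :=
  ∀ (W : Type) [AddCommGroup W] [Module K2 W] [FiniteDimensional K2 W] (φ : W →ₗ[K2] F),
    (∀ w, φ w ∈ S) → finrank K2 W ≤ m + finrank K2 (B.comap φ)

namespace Le
variable {F F' : Type} [AddCommGroup F] [Module K2 F] [AddCommGroup F'] [Module K2 F']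

theorem weaken {S B : Submodule K2 F} {m m' : ℕ} (h : Le S B m) (hm : m ≤ m') : Le S B m' := by
  intro W _ _ _ φ hφ
  have := h W φ hφ
  omega

theorem of_le {S B : Submodule K2 F} (h : S ≤ B) (m : ℕ) : Le S B m := by
  intro W _ _ _ φ hφ
  have : B.comap φ = ⊤ := by
    rw [eq_top_iff]; intro w _; exact h (hφ w)
  rw [this, finrank_top]; omega

/-- transfer along a linear relation -/
theorem rel {S B : Submodule K2 F} {S' B' : Submodule K2 F'} {m : ℕ}
    (Rel : Submodule K2 (F × F'))
    (h1 : ∀ c ∈ S, ∃ u ∈ S', (c, u) ∈ Rel)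
    (h2 : ∀ c ∈ S, ∀ u ∈ B', (c, u) ∈ Rel → c ∈ B) (h : Le S' B' m) : Le S B m := by
  intro W _ _ _ φ hφ
  let b := Module.finBasis K2 W
  choose u hu1 hu2 using fun i => h1 (φ (b i)) (hφ _)
  let φ' : W →ₗ[K2] F' := b.constr K2 u
  have key : ∀ w, φ' w ∈ S' ∧ (φ w, φ' w) ∈ Rel := by
    intro w
    have hw : w ∈ Submodule.span K2 (Set.range b) := by rw [b.span_eq]; trivial
    induction hw using Submodule.span_induction with
    | mem x hx =>
      obtain ⟨i, rfl⟩ := hx
      simp only [φ', Module.Basis.constr_basis]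
      exact ⟨hu1 i, hu2 i⟩
    | zero => rw [map_zero, map_zero]; exact ⟨S'.zero_mem, Rel.zero_mem⟩
    | add x y _ _ hx hy =>
      rw [map_add, map_add]
      exact ⟨S'.add_mem hx.1 hy.1, Rel.add_mem hx.2 hy.2⟩
    | smul a x _ hx =>
      rw [map_smul, map_smul]
      exact ⟨S'.smul_mem a hx.1, Rel.smul_mem a hx.2⟩
  have h3 := h W φ' fun w => (key w).1
  have h4 : B'.comap φ' ≤ B.comap φ := fun w hw => h2 _ (hφ w) _ hw (key w).2
  have := Submodule.finrank_mono h4
  omega

theorem map {S B : Submodule K2 F} {S' B' : Submodule K2 F'} {m : ℕ} (f : F →ₗ[K2] F')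
    (h1 : ∀ c ∈ S, f c ∈ S') (h2 : ∀ c ∈ S, f c ∈ B' → c ∈ B) (h : Le S' B' m) : Le S B m := by
  refine rel f.graph (fun c hc => ⟨f c, h1 c hc, rfl⟩) ?_ h
  intro c hc u hu hr
  have : u = f c := hr
  exact h2 c hc (this ▸ hu)

theorem mono {S B S' B' : Submodule K2 F} {m : ℕ} (h : Le S' B' m) (hS : S ≤ S')
    (hB : ∀ c ∈ S, c ∈ B' → c ∈ B) : Le S B m :=
  map LinearMap.id hS hB h

theorem step {S S₀ B : Submodule K2 F} {m₁ m₂ : ℕ} (h1 : Le S S₀ m₁) (h2 : Le (S ⊓ S₀) B m₂) :
    Le S B (m₁ + m₂) := by
  intro W _ _ _ φ hφ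
  have a1 := h1 W φ hφ
  have a2 := h2 (S₀.comap φ) (φ.comp (S₀.comap φ).subtype) (fun w => ⟨hφ _, w.2⟩)
  have a3 : finrank K2 (B.comap (φ.comp (S₀.comap φ).subtype)) ≤ finrank K2 (B.comap φ) := by
    rw [← Submodule.finrank_map_subtype_eq]
    apply Submodule.finrank_mono
    rintro _ ⟨w, hw, rfl⟩
    exact hw
  omega

theorem inf {S B₁ B₂ : Submodule K2 F} {m₁ m₂ : ℕ} (h1 : Le S B₁ m₁) (h2 : Le S B₂ m₂) :
    Le S (B₁ ⊓ B₂) (m₁ + m₂) :=
  step h1 (h2.mono inf_le_left fun _ hc hc' => ⟨hc.2, hc'⟩)

theorem top_bot [FiniteDimensional K2 F] : Le (⊤ : Submodule K2 F) ⊥ (finrank K2 F) := by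
  intro W _ _ _ φ _
  have := φ.finrank_range_add_finrank_ker
  have h2 : finrank K2 (LinearMap.range φ) ≤ finrank K2 F := Submodule.finrank_le _
  have h3 : (⊥ : Submodule K2 F).comap φ = LinearMap.ker φ := rfl
  rw [h3]; omega

theorem of_range [FiniteDimensional K2 F'] {S B : Submodule K2 F} (ε : F' →ₗ[K2] F)
    (h : ∀ c ∈ S, ∃ v, c - ε v ∈ B) : Le S B (finrank K2 F') := by
  refine rel (B.comap ((LinearMap.fst K2 F F') - ε.comp (LinearMap.snd K2 F F'))) ?_ ?_ top_bot
  · intro c hc
    obtain ⟨v, hv⟩ := h c hc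
    exact ⟨v, trivial, hv⟩
  · intro c _ u hu hr
    have hu' : u = 0 := hu
    subst hu'
    simpa using hr

theorem finset {ι : Type} (s : Finset ι) {S : Submodule K2 F} (B : ι → Submodule K2 F) {m : ℕ}
    (h : ∀ i ∈ s, Le S (B i) m) : Le S (⨅ i ∈ s, B i) (s.card * m) := by
  classical
  induction s using Finset.induction_on with
  | empty => exact of_le (by simp) _
  | insert a s ha ih =>
    rw [Finset.card_insert_of_notMem ha]
    have h1 := (h a (Finset.mem_insert_self _ _)).inf
      (ih fun i hi => h i (Finset.mem_insert_of_mem hi))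
    refine (h1.mono le_rfl ?_).weaken (by rw [Nat.add_mul]; omega)
    intro c _ hc
    simp only [Submodule.mem_iInf, Finset.mem_insert]
    rintro i (rfl | hi)
    · exact hc.1
    · have := hc.2
      simp only [SetLike.mem_coe, Submodule.mem_iInf] at this
      exact this i hi

end Le

theorem two_self {V : Type} [AddCommGroup V] [Module K2 V] (v : V) : v + v = 0 := by
  have : (2 : K2) = 0 := rfl
  rw [← two_smul K2 v, this, zero_smul]

theorem neg_self {V : Type} [AddCommGroup V] [Module K2 V] (v : V) : -v = v :=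
  neg_eq_of_add_eq_zero_left (two_self v)

theorem sub_eq_add2 {V : Type} [AddCommGroup V] [Module K2 V] (v w : V) : v - w = v + w := by
  rw [sub_eq_add_neg, neg_self]

section DD
variable {E E' V V' : Type} [AddCommGroup V] [AddCommGroup V']

/-- the coboundary of a function on lists (characteristic two) -/
def D : (List E → V) → List E → V
  | _, [] => 0
  | c, (x :: l) => c l + D (fun l' => c (x :: l')) l

@[simp] theorem D_nil (c : List E → V) : D c [] = 0 := rfl
theorem D_cons (c : List E → V) (x : E) (l : List E) :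
    D c (x :: l) = c l + D (fun l' => c (x :: l')) l := rfl

theorem D_add (c c' : List E → V) (l : List E) : D (c + c') l = D c l + D c' l := by
  induction l generalizing c c' with
  | nil => simp
  | cons x l ih =>
    rw [D_cons, D_cons, D_cons]
    have := ih (fun l' => c (x :: l')) (fun l' => c' (x :: l'))
    have h2 : (fun l' => (c + c') (x :: l')) =
        (fun l' => c (x :: l')) + (fun l' => c' (x :: l')) := rfl
    rw [h2, this, Pi.add_apply]; abel

theorem D_comp (f : V →+ V') (c : List E → V) (l : List E) :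
    D (fun l => f (c l)) l = f (D c l) := by
  induction l generalizing c with
  | nil => simp
  | cons x l ih => rw [D_cons, D_cons, map_add, ← ih]

theorem D_map (φ : E' → E) (c : List E → V) (l : List E') :
    D (fun l => c (l.map φ)) l = D c (l.map φ) := by
  induction l generalizing c with
  | nil => simp
  | cons x l ih =>
    rw [D_cons, List.map_cons, D_cons, ← ih]
    rfl

theorem D_congr (c c' : List E → V) (l : List E)
    (h : ∀ l', l'.Sublist l → l'.length + 1 = l.length → c l' = c' l') : D c l = D c' l := by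
  induction l generalizing c c' with
  | nil => simp
  | cons x l ih =>
    rw [D_cons, D_cons, h l (List.sublist_cons_self _ _) rfl, ih]
    intro l' h1 h2
    exact h _ (h1.cons_cons x) (by simp [h2])

theorem D_zero (l : List E) : D (0 : List E → V) l = 0 := by
  induction l with
  | nil => simp
  | cons x l ih =>
    rw [D_cons]
    have : (fun l' => (0 : List E → V) (x :: l')) = 0 := rfl
    rw [this, ih]; simp

theorem D_D [Module K2 V] (c : List E → V) (l : List E) : D (D c) l = 0 := by
  induction l generalizing c with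
  | nil => simp
  | cons x l ih =>
    rw [D_cons]
    have h2 : (fun l' => D c (x :: l')) = c + D (fun l' => c (x :: l')) := rfl
    rw [h2, D_add, ih, add_zero, two_self]

theorem D_single (c : List E → V) (x : E) : D c [x] = c [] := by
  simp [D_cons]

theorem D_pair (c : List E → V) (x y : E) : D c [x, y] = c [y] + c [x] := by
  simp [D_cons]

theorem D_triple (c : List E → V) (x y z : E) :
    D c [x, y, z] = c [y, z] + (c [x, z] + c [x, y]) := by
  simp [D_cons]

/-- the coboundary as a linear map -/
def Dl (E V : Type) [AddCommGroup V] [Module K2 V] : (List E → V) →ₗ[K2] (List E → V) where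
  toFun := D
  map_add' c c' := funext (D_add c c')
  map_smul' a c := by
    funext l
    exact D_comp (DistribSMul.toAddMonoidHom V a) c l

theorem Dl_apply [Module K2 V] (c : List E → V) : Dl E V c = D c := rfl

end DD

end Pool.Agent.H816Z
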