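import Pool.Agent.H816Z.Alg

set_option autoImplicit false

open Topology Filter Module

namespace Pool.Agent.H816Z

variable {M E : Type} [TopologicalSpace M]

/-- a free action preserving the sheets -/
structure Act (S : Sys M E) (H : Type) [Group H] [MulAction H E] : Prop where
  p_smul : ∀ (g : H) a, S.p (g • a) = S.p a
  R_smul : ∀ (g : H) U a b, S.R U a b → S.R U (g • a) (g • b)
  free : ∀ (g : H) (a : E), g • a = a → g = 1

/-- equivariant functions on lists -/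
def Eqv (E : Type) {H V : Type} [Group H] [MulAction H E] [AddCommGroup V] [Module K2 V]
    (ρ : Representation K2 H V) : Submodule K2 (List E → V) where
  carrier := {c | c [] = 0 ∧ ∀ (g : H) (l : List E), c (l.map (g • ·)) = ρ g (c l)}
  add_mem' := by
    rintro a b ⟨h1, h2⟩ ⟨h3, h4⟩
    exact ⟨by simp [h1, h3], fun g l => by simp [h2, h4]⟩
  zero_mem' := ⟨rfl, fun g l => by simp⟩
  smul_mem' := by
    rintro a b ⟨h1, h2⟩
    exact ⟨by simp [h1], fun g l => by simp [h2]⟩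

theorem Eqv_D {H V : Type} [Group H] [MulAction H E] [AddCommGroup V] [Module K2 V]
    {ρ : Representation K2 H V} {c : List E → V} (hc : c ∈ Eqv E ρ) : D c ∈ Eqv E ρ := by
  refine ⟨rfl, fun g l => ?_⟩
  rw [← D_map]
  have : (fun l : List E => c (l.map (g • ·))) = fun l => (ρ g).toAddMonoidHom (c l) :=
    funext fun l => hc.2 g l
  rw [this, D_comp]; rfl

namespace Sys
variable (S : Sys M E)

theorem small_mono {U U' : Set M} (h : U ⊆ U') {l : List E} (hl : S.small U l) : S.small U' l :=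
  fun a ha b hb => S.mono h (hl a ha b hb)

theorem small_sub {U : Set M} {l l' : List E} (h : l' ⊆ l) (hl : S.small U l) : S.small U l' :=
  fun a ha b hb => hl a (h ha) b (h hb)

theorem small_smul {H : Type} [Group H] [MulAction H E] (hA : Act S H) (g : H) {U : Set M}
    {l : List E} (hl : S.small U l) : S.small U (l.map (g • ·)) := by
  intro a ha b hb
  obtain ⟨a', ha', rfl⟩ := List.mem_map.1 ha
  obtain ⟨b', hb', rfl⟩ := List.mem_map.1 hb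
  exact hA.R_smul g U _ _ (hl a' ha' b' hb')

/-- null cochains -/
def N (V : Type) [AddCommGroup V] [Module K2 V] (K : Set M) (n : ℕ) :
    Submodule K2 (List E → V) where
  carrier := {c | S.Null K n c}
  add_mem' := by
    intro a b ha hb z hz
    obtain ⟨U, hU, h1⟩ := ha z hz
    obtain ⟨U', hU', h2⟩ := hb z hz
    refine ⟨U ∩ U', inter_mem hU hU', fun l hl hs => ?_⟩
    rw [Pi.add_apply, h1 l hl (S.small_mono Set.inter_subset_left hs),
      h2 l hl (S.small_mono Set.inter_subset_right hs), add_zero]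
  zero_mem' := fun z _ => ⟨Set.univ, univ_mem, fun _ _ _ => rfl⟩
  smul_mem' := by
    intro a b hb z hz
    obtain ⟨U, hU, h1⟩ := hb z hz
    exact ⟨U, hU, fun l hl hs => by rw [Pi.smul_apply, h1 l hl hs, smul_zero]⟩

variable {V : Type} [AddCommGroup V] [Module K2 V]

theorem mem_N {K : Set M} {n : ℕ} {c : List E → V} : c ∈ S.N V K n ↔
    ∀ z ∈ K, ∃ U ∈ 𝓝 z, ∀ l : List E, l.length = n → S.small U l → c l = 0 := Iff.rfl

theorem N_mono {K L : Set M} (h : K ⊆ L) {n : ℕ} {c : List E → V} (hc : c ∈ S.N V L n) :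
    c ∈ S.N V K n := fun z hz => hc z (h hz)

theorem N_union {K L : Set M} {n : ℕ} {c : List E → V} (h1 : c ∈ S.N V K n)
    (h2 : c ∈ S.N V L n) : c ∈ S.N V (K ∪ L) n := by
  rintro z (hz | hz)
  exacts [h1 z hz, h2 z hz]

theorem N_D {K : Set M} {n : ℕ} {c : List E → V} (hc : c ∈ S.N V K n) :
    D c ∈ S.N V K (n + 1) := by
  intro z hz
  obtain ⟨U, hU, h⟩ := hc z hz
  refine ⟨U, hU, fun l hl hs => ?_⟩
  rw [D_congr c 0 l, D_zero]
  intro l' h1 h2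
  exact h l' (by omega) (S.small_sub h1.subset hs)

theorem N_open {K : Set M} {n : ℕ} {c : List E → V} (hc : c ∈ S.N V K n) :
    ∃ O, IsOpen O ∧ K ⊆ O ∧ c ∈ S.N V O n := by
  refine ⟨{z | ∃ U ∈ 𝓝 z, ∀ l : List E, l.length = n → S.small U l → c l = 0}, ?_, hc,
    fun z hz => hz⟩
  rw [isOpen_iff_mem_nhds]
  rintro z ⟨U, hU, h⟩
  filter_upwards [eventually_mem_nhds_iff.2 hU] with y hy
  exact ⟨U, hy, h⟩

/-- cocycles -/
def Z (Fm : Submodule K2 (List E → V)) (K : Set M) (n : ℕ) : Submodule K2 (List E → V) :=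
  Fm ⊓ (S.N V K (n + 1)).comap (Dl E V)

/-- coboundaries -/
def B (Fm : Submodule K2 (List E → V)) (K : Set M) (n : ℕ) : Submodule K2 (List E → V) where
  carrier := {c | ∃ h ∈ Fm, c - D h ∈ S.N V K n}
  add_mem' := by
    rintro a b ⟨h, h1, h2⟩ ⟨h', h3, h4⟩
    refine ⟨h + h', Fm.add_mem h1 h3, ?_⟩
    have := (S.N V K n).add_mem h2 h4
    rw [← Dl_apply, map_add, Dl_apply, Dl_apply]
    convert this using 1; abel
  zero_mem' := ⟨0, Fm.zero_mem, by rw [← Dl_apply, map_zero]; simp⟩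
  smul_mem' := by
    rintro a b ⟨h, h1, h2⟩
    refine ⟨a • h, Fm.smul_mem a h1, ?_⟩
    rw [← Dl_apply, map_smul, ← smul_sub]
    exact (S.N V K n).smul_mem a h2

theorem mem_Z {Fm : Submodule K2 (List E → V)} {K : Set M} {n : ℕ} {c : List E → V} :
    c ∈ S.Z Fm K n ↔ c ∈ Fm ∧ D c ∈ S.N V K (n + 1) := Iff.rfl

theorem mem_B {Fm : Submodule K2 (List E → V)} {K : Set M} {n : ℕ} {c : List E → V} :
    c ∈ S.B Fm K n ↔ ∃ h ∈ Fm, c - D h ∈ S.N V K n := Iff.rfl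

theorem Z_mono {Fm : Submodule K2 (List E → V)} {K L : Set M} (h : K ⊆ L) {n : ℕ} :
    S.Z Fm L n ≤ S.Z Fm K n := fun _ hc => ⟨hc.1, S.N_mono h hc.2⟩

theorem B_mono {Fm : Submodule K2 (List E → V)} {K L : Set M} (h : K ⊆ L) {n : ℕ} :
    S.B Fm L n ≤ S.B Fm K n := fun _ ⟨g, h1, h2⟩ => ⟨g, h1, S.N_mono h h2⟩

theorem N_le_B {Fm : Submodule K2 (List E → V)} {K : Set M} {n : ℕ} :
    S.N V K n ≤ S.B Fm K n := fun c hc =>
  ⟨0, Fm.zero_mem, by rw [← Dl_apply, map_zero, sub_zero]; exact hc⟩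

open Classical in
/-- cut a cochain according to the position of the first point -/
noncomputable def cut (T : Set M) (c : List E → V) : List E → V
  | [] => 0
  | x :: l => if S.p x ∈ T then c (x :: l) else 0

variable {H : Type} [Group H] [MulAction H E] {ρ : Representation K2 H V}

theorem cut_Eqv (hA : Act S H) (T : Set M) {c : List E → V} (hc : c ∈ Eqv E ρ) :
    S.cut T c ∈ Eqv E ρ := by
  refine ⟨rfl, fun g l => ?_⟩
  cases l with
  | nil => simp [cut]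
  | cons x l =>
    have h1 := hA.p_smul g x
    by_cases hx : S.p x ∈ T
    · simp only [List.map_cons, cut, h1, hx, if_true]
      exact hc.2 g (x :: l)
    · simp [cut, h1, hx]

theorem split [NormalSpace M] (hA : Act S H) {K₁ K₂ : Set M} (h1 : IsClosed K₁)
    (h2 : IsClosed K₂) {n : ℕ} {c : List E → V} (hc : c ∈ Eqv E ρ)
    (hN : c ∈ S.N V (K₁ ∩ K₂) n) :
    ∃ c₁ ∈ Eqv E ρ, c₁ ∈ S.N V K₁ n ∧ c - c₁ ∈ S.N V K₂ n := by
  obtain ⟨O, hO, hKO, hcO⟩ := S.N_open hN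
  obtain ⟨u, v, hu, hv, hu1, hv1, huv⟩ := normal_separation (h1.sdiff hO) (h2.sdiff hO) (by
    rw [Set.disjoint_left]
    rintro z ⟨hz1, hz2⟩ ⟨hz3, -⟩
    exact hz2 (hKO ⟨hz1, hz3⟩))
  refine ⟨S.cut uᶜ c, S.cut_Eqv hA _ hc, fun z hz => ?_, fun z hz => ?_⟩
  · by_cases hzO : z ∈ O
    · obtain ⟨U, hU, h⟩ := hcO z hzO
      refine ⟨U, hU, fun l hl hs => ?_⟩
      cases l with
      | nil => rfl
      | cons x l => simp [cut, h _ hl hs]
    · refine ⟨u, hu.mem_nhds (hu1 ⟨hz, hzO⟩), fun l _ hs => ?_⟩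
      cases l with
      | nil => rfl
      | cons x l =>
        have : S.p x ∈ u := S.mem (hs x (by simp) x (by simp))
        simp [cut, this]
  · by_cases hzO : z ∈ O
    · obtain ⟨U, hU, h⟩ := hcO z hzO
      refine ⟨U, hU, fun l hl hs => ?_⟩
      cases l with
      | nil => simp [cut, hc.1]
      | cons x l => simp [cut, h _ hl hs]
    · refine ⟨v, hv.mem_nhds (hv1 ⟨hz, hzO⟩), fun l _ hs => ?_⟩
      cases l with
      | nil => simp [cut, hc.1]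
      | cons x l =>
        have h3 : S.p x ∈ v := S.mem (hs x (by simp) x (by simp))
        have h4 : S.p x ∉ u := fun h => Set.disjoint_left.1 huv h h3
        simp [cut, h4]

theorem glue [NormalSpace M] (hA : Act S H) {K₁ K₂ : Set M} (h1 : IsClosed K₁)
    (h2 : IsClosed K₂) {n : ℕ} {c h₁ h₂ g : List E → V} (e1 : h₁ ∈ Eqv E ρ) (e2 : h₂ ∈ Eqv E ρ)
    (eg : g ∈ Eqv E ρ) (a1 : c - D h₁ ∈ S.N V K₁ (n + 1)) (a2 : c - D h₂ ∈ S.N V K₂ (n + 1))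
    (a3 : h₁ - h₂ - g ∈ S.N V (K₁ ∩ K₂) n) (a4 : D g ∈ S.N V K₂ (n + 1)) :
    c ∈ S.B (Eqv E ρ) (K₁ ∪ K₂) (n + 1) := by
  obtain ⟨n₁, b1, b2, b3⟩ := S.split hA h1 h2
    ((Eqv E ρ).sub_mem ((Eqv E ρ).sub_mem e1 e2) eg) a3
  refine ⟨h₁ - n₁, (Eqv E ρ).sub_mem e1 b1, S.N_union ?_ ?_⟩
  · have := (S.N V K₁ (n + 1)).add_mem a1 (S.N_D b2)
    convert this using 1
    simp only [← Dl_apply, map_sub]; abel
  · have := (S.N V K₂ (n + 1)).sub_mem ((S.N V K₂ (n + 1)).sub_mem a2 a4) (S.N_D b3)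
    convert this using 1
    simp only [← Dl_apply, map_sub]; abel

theorem sub_mem_Z {Fm : Submodule K2 (List E → V)} {K₁ K₂ : Set M} {n : ℕ}
    {c h₁ h₂ : List E → V} (e1 : h₁ ∈ Fm) (e2 : h₂ ∈ Fm)
    (a1 : c - D h₁ ∈ S.N V K₁ (n + 1)) (a2 : c - D h₂ ∈ S.N V K₂ (n + 1)) :
    h₁ - h₂ ∈ S.Z Fm (K₁ ∩ K₂) n := by
  refine ⟨Fm.sub_mem e1 e2, ?_⟩
  have := (S.N V (K₁ ∩ K₂) (n + 1)).sub_mem (S.N_mono Set.inter_subset_right a2)
    (S.N_mono Set.inter_subset_left a1)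
  change Dl E V (h₁ - h₂) ∈ S.N V (K₁ ∩ K₂) (n + 1)
  convert this using 1
  simp only [← Dl_apply, map_sub]; abel

/-- cocycles on `K'` extend to cocycles on `K` -/
def Ext (Fm : Submodule K2 (List E → V)) (K' K : Set M) (n : ℕ) : Prop :=
  ∀ u ∈ S.Z Fm K' n, ∃ g ∈ S.Z Fm K n, u - g ∈ S.N V K' n

theorem D_mem_Z {K : Set M} {n : ℕ} {h : List E → V} (hh : h ∈ Eqv E ρ) :
    D h ∈ S.Z (Eqv E ρ) K n := by
  refine ⟨Eqv_D hh, ?_⟩
  have : D (D h) = 0 := funext (D_D h)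
  change D (D h) ∈ S.N V K (n + 1)
  rw [this]; exact Submodule.zero_mem _

theorem ext_of_van {K' K : Set M} {n : ℕ} (h : S.Z (Eqv E ρ) K' n ≤ S.B (Eqv E ρ) K' n) :
    S.Ext (Eqv E ρ) K' K n := by
  intro u hu
  obtain ⟨g, h1, h2⟩ := h hu
  exact ⟨D g, S.D_mem_Z h1, h2⟩

theorem glue' [NormalSpace M] (hA : Act S H) {K₁ K₂ : Set M} (h1 : IsClosed K₁)
    (h2 : IsClosed K₂) {n : ℕ} {c : List E → V} (hE : S.Ext (Eqv E ρ) (K₁ ∩ K₂) K₂ n)
    (a1 : c ∈ S.B (Eqv E ρ) K₁ (n + 1)) (a2 : c ∈ S.B (Eqv E ρ) K₂ (n + 1)) :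
    c ∈ S.B (Eqv E ρ) (K₁ ∪ K₂) (n + 1) := by
  obtain ⟨h₁, e1, a1⟩ := a1
  obtain ⟨h₂, e2, a2⟩ := a2
  obtain ⟨g, hg, a3⟩ := hE _ (S.sub_mem_Z e1 e2 a1 a2)
  exact S.glue hA h1 h2 e1 e2 hg.1 a1 a2 a3 hg.2

theorem slice [NormalSpace M] [T2Space M] (hA : Act S H) {K : Set M} (hK : IsCompact K)
    {t : M → ℝ} (ht : ContinuousOn t K) {n : ℕ} {c : List E → V}
    (hB : ∀ τ, c ∈ S.B (Eqv E ρ) (K ∩ t ⁻¹' {τ}) (n + 1))
    (hE : ∀ τ, S.Ext (Eqv E ρ) (K ∩ t ⁻¹' {τ}) K n) : c ∈ S.B (Eqv E ρ) K (n + 1) := by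
  have hcl : ∀ T : Set ℝ, IsClosed T → IsClosed (K ∩ t ⁻¹' T) := fun T hT =>
    ht.preimage_isClosed_of_isClosed hK.isClosed hT
  let Q : ℝ → Prop := fun τ => c ∈ S.B (Eqv E ρ) (K ∩ t ⁻¹' Set.Iic τ) (n + 1)
  have Qmono : ∀ τ τ', τ ≤ τ' → Q τ' → Q τ := fun τ τ' h hQ =>
    S.B_mono (Set.inter_subset_inter_right _ (Set.preimage_mono (Set.Iic_subset_Iic.2 h))) hQ
  have loc : ∀ τ₀, ∃ ε > 0, ∀ τ, τ₀ - ε ≤ τ → τ ≤ τ₀ + ε → Q τ → Q (τ₀ + ε) := by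
    intro τ₀
    obtain ⟨h, e, hN⟩ := hB τ₀
    obtain ⟨O, hO, hKO, hN'⟩ := S.N_open hN
    have hc : IsCompact (t '' (K \ O)) :=
      (hK.diff hO).image_of_continuousOn (ht.mono Set.sdiff_subset)
    have hτ : τ₀ ∈ (t '' (K \ O))ᶜ := by
      rintro ⟨z, hz, hzt⟩
      exact hz.2 (hKO ⟨hz.1, hzt⟩)
    obtain ⟨ε, hε, hball⟩ := Metric.nhds_basis_closedBall.mem_iff.1
      (hc.isClosed.isOpen_compl.mem_nhds hτ)
    refine ⟨ε, hε, fun τ h1 h2 hQ => ?_⟩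
    have a2 : c ∈ S.B (Eqv E ρ) (K ∩ t ⁻¹' Set.Icc τ (τ₀ + ε)) (n + 1) := by
      refine ⟨h, e, S.N_mono ?_ hN'⟩
      rintro z ⟨hz, hz1, hz2⟩
      by_contra hzO
      refine hball (a := t z) ?_ ⟨z, ⟨hz, hzO⟩, rfl⟩
      rw [Real.closedBall_eq_Icc]
      exact ⟨by linarith, hz2⟩
    have hI : (K ∩ t ⁻¹' Set.Iic τ) ∩ (K ∩ t ⁻¹' Set.Icc τ (τ₀ + ε)) = K ∩ t ⁻¹' {τ} := by
      ext z
      simp only [Set.mem_inter_iff, Set.mem_preimage, Set.mem_Iic, Set.mem_Icc,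
        Set.mem_singleton_iff]
      constructor
      · rintro ⟨⟨a, b⟩, -, c, -⟩; exact ⟨a, le_antisymm b c⟩
      · rintro ⟨a, b⟩; exact ⟨⟨a, b.le⟩, a, b.ge, by linarith⟩
    have := S.glue' hA (hcl _ isClosed_Iic) (hcl _ isClosed_Icc) (by
      rw [hI]
      intro u hu
      obtain ⟨g, g1, g2⟩ := hE τ u hu
      exact ⟨g, S.Z_mono Set.inter_subset_left g1, g2⟩) hQ a2
    refine S.B_mono ?_ this
    rintro z ⟨hz, hz1⟩
    rcases le_total (t z) τ with h | h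
    · exact Or.inl ⟨hz, h⟩
    · exact Or.inr ⟨hz, h, hz1⟩
  have all : ∀ τ τ', Q τ → Q τ' := by
    intro τ τ'
    refine (isPreconnected_univ (α := ℝ)).induction₂' (fun a b => Q a → Q b) ?_
      (fun a b d _ _ _ h1 h2 h => h2 (h1 h)) (Set.mem_univ τ) (Set.mem_univ τ')
    intro τ₀ _
    obtain ⟨ε, hε, h⟩ := loc τ₀
    rw [nhdsWithin_univ]
    filter_upwards [Icc_mem_nhds (show τ₀ - ε < τ₀ by linarith) (show τ₀ < τ₀ + ε by linarith)]
      with τ hτ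
    exact ⟨fun hQ => Qmono _ _ hτ.2 (h τ₀ (by linarith) (by linarith) hQ),
      fun hQ => Qmono _ _ (by linarith) (h τ hτ.1 hτ.2 hQ)⟩
  obtain ⟨a, ha⟩ := (hK.image_of_continuousOn ht).bddBelow
  obtain ⟨b, hb⟩ := (hK.image_of_continuousOn ht).bddAbove
  have q1 : Q (a - 1) := by
    refine S.N_le_B ?_
    rintro z ⟨hz, hz1⟩
    have := ha ⟨z, hz, rfl⟩
    have h2 : t z ≤ a - 1 := hz1
    linarith
  exact S.B_mono (L := K ∩ t ⁻¹' Set.Iic b) (fun z hz => ⟨hz, hb ⟨z, hz, rfl⟩⟩) (all _ b q1)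

end Sys

end Pool.Agent.H816Z
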