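import Pool.Agent.H816Z.Trans

set_option autoImplicit false

open Topology Filter Module

namespace Pool.Agent.H816Z

variable {M E : Type} [TopologicalSpace M]

section
variable {V H : Type} [AddCommGroup V] [Module K2 V] [Group H] [MulAction H E]

/-- equivariant cochains with values in a subspace -/
def EV (E : Type) [MulAction H E] (ρ : Representation K2 H V) (Y : Submodule K2 V) :
    Submodule K2 (List E → V) :=
  Eqv E ρ ⊓ Submodule.pi Set.univ (fun _ => Y)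

theorem mem_EV {ρ : Representation K2 H V} {Y : Submodule K2 V} {c : List E → V} :
    c ∈ EV E ρ Y ↔ c ∈ Eqv E ρ ∧ ∀ l, c l ∈ Y :=
  ⟨fun h => ⟨h.1, fun l => h.2 l trivial⟩, fun h => ⟨h.1, fun l _ => h.2 l⟩⟩

theorem D_mem (Y : Submodule K2 V) (c : List E → V) (h : ∀ l, c l ∈ Y) (l : List E) :
    D c l ∈ Y := by
  induction l generalizing c with
  | nil => exact Y.zero_mem
  | cons x l ih => exact Y.add_mem (h l) (ih _ fun l' => h _)

theorem EV_D {ρ : Representation K2 H V} {Y : Submodule K2 V} {c : List E → V}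
    (hc : c ∈ EV E ρ Y) : D c ∈ EV E ρ Y :=
  mem_EV.2 ⟨Eqv_D hc.1, D_mem Y c (mem_EV.1 hc).2⟩

theorem lift_eqv (hfree : ∀ (g : H) (a : E), g • a = a → g = 1) {ρ : Representation K2 H V}
    (d : V →ₗ[K2] V) (hd : ∀ g v, d (ρ g v) = ρ g (d v)) {Y Y' : Submodule K2 V}
    (hY : ∀ g, ∀ v ∈ Y, ρ g v ∈ Y) (hex : ∀ v ∈ Y', ∃ u ∈ Y, d u = v) {c : List E → V}
    (hc : c ∈ EV E ρ Y') :
    ∃ c' ∈ EV E ρ Y, (∀ l, d (c' l) = c l) ∧ ∀ l, c l = 0 → c' l = 0 := by
  let _ : MulAction H (List E) :=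
    { smul := fun g l => l.map (g • ·)
      one_smul := fun l => map_one_smul l
      mul_smul := fun g h l => (map_smul_smul g h l).symm }
  have hsm : ∀ (g : H) (l : List E), g • l = l.map (g • ·) := fun _ _ => rfl
  let rep : List E → List E := fun l => (Quotient.mk (MulAction.orbitRel H (List E)) l).out
  have hrep : ∀ l, ∃ g : H, g • rep l = l := fun l => by
    have : MulAction.orbitRel H (List E) (rep l) l := Quotient.exact (Quotient.out_eq _)
    exact (MulAction.orbitRel H (List E)).symm this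
  choose γ hγ using hrep
  have hrep2 : ∀ (g : H) l, rep (g • l) = rep l := fun g l => by
    have : Quotient.mk (MulAction.orbitRel H (List E)) (g • l) =
        Quotient.mk (MulAction.orbitRel H (List E)) l := Quotient.sound ⟨g, rfl⟩
    simp only [rep, this]
  have hu : ∀ l, ∃ u ∈ Y, d u = c l ∧ (c l = 0 → u = 0) := by
    intro l
    by_cases h : c l = 0
    · exact ⟨0, Y.zero_mem, by rw [map_zero, h], fun _ => rfl⟩
    · obtain ⟨u, h1, h2⟩ := hex _ ((mem_EV.1 hc).2 l)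
      exact ⟨u, h1, h2, fun h' => (h h').elim⟩
  choose u u1 u2 u3 using hu
  have hcl : ∀ l, c l = ρ (γ l) (c (rep l)) := fun l => by
    rw [← hc.1.2, ← hsm, hγ]
  have hz : ∀ l, c l = 0 → ρ (γ l) (u (rep l)) = 0 := by
    intro l hl
    have : c (rep l) = 0 := by
      have h1 : rep l = (γ l)⁻¹ • l := by rw [eq_inv_smul_iff, hγ]
      rw [h1, hsm, hc.1.2, hl, map_zero]
    rw [u3 _ this, map_zero]
  refine ⟨fun l => ρ (γ l) (u (rep l)), mem_EV.2 ⟨⟨hz _ hc.1.1, fun g l => ?_⟩,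
    fun l => hY _ _ (u1 _)⟩, fun l => by rw [hd, u2, ← hcl], hz⟩
  cases l with
  | nil =>
    change ρ (γ []) (u (rep [])) = ρ g (ρ (γ []) (u (rep [])))
    rw [hz _ hc.1.1, map_zero]
  | cons x l =>
    change ρ (γ (g • (x :: l))) (u (rep (g • (x :: l)))) = ρ g (ρ (γ (x :: l)) (u (rep (x :: l))))
    have h1 : γ (g • (x :: l)) = g * γ (x :: l) := by
      have h2 := hγ (g • (x :: l))
      rw [hrep2] at h2
      have h3 : rep (x :: l) = (γ (x :: l))⁻¹ • (x :: l) := by rw [eq_inv_smul_iff, hγ]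
      rw [h3, ← mul_smul, ← inv_smul_eq_iff, ← mul_smul, hsm, List.map_cons] at h2
      have h4 := hfree _ _ (List.cons.inj h2).1
      rw [inv_mul_eq_one, eq_mul_inv_iff_mul_eq] at h4
      exact h4.symm
    rw [hrep2, h1, map_mul]; rfl

end

namespace Sys
variable (S : Sys M E) {V H : Type} [AddCommGroup V] [Module K2 V] [Group H] [MulAction H E]

theorem N_comp {K : Set M} {n : ℕ} (d : V →ₗ[K2] V) {c : List E → V} (hc : c ∈ S.N V K n) :
    d.compLeft (List E) c ∈ S.N V K n := by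
  intro z hz
  obtain ⟨U, hU, h⟩ := hc z hz
  exact ⟨U, hU, fun l hl hs => by
    change d (c l) = 0
    rw [h l hl hs, map_zero]⟩

theorem D_compLeft (d : V →ₗ[K2] V) (c : List E → V) :
    D (d.compLeft (List E) c) = d.compLeft (List E) (D c) :=
  funext fun l => D_comp d.toAddMonoidHom c l

theorem shift_one (hfree : ∀ (g : H) (a : E), g • a = a → g = 1) {ρ : Representation K2 H V}
    (d : V →ₗ[K2] V) (hd : ∀ g v, d (ρ g v) = ρ g (d v)) {Y Y' : Submodule K2 V}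
    (hY : ∀ g, ∀ v ∈ Y, ρ g v ∈ Y) (hex : ∀ v ∈ Y', ∃ u ∈ Y, d u = v) {K : Set M} {n b : ℕ}
    (h : Le (S.Z (EV E ρ (Y ⊓ LinearMap.ker d)) K (n + 1))
      (S.B (EV E ρ (Y ⊓ LinearMap.ker d)) K (n + 1)) b) :
    Le (S.Z (EV E ρ Y') K n) ((S.Z (EV E ρ Y) K n).map (d.compLeft (List E))) b := by
  refine Le.rel' ((EV E ρ Y).comap (LinearMap.fst _ _ _) ⊓ (S.N V K (n + 1)).comap
    ((Dl E V).comp (LinearMap.fst _ _ _) - LinearMap.snd _ _ _))
    ((d.compLeft (List E)).comp (LinearMap.fst _ _ _)) (LinearMap.snd _ _ _) ?_ ?_ h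
  · rintro c ⟨hc, hN⟩
    obtain ⟨c', c1, c2, -⟩ := lift_eqv hfree d hd hY hex hc
    obtain ⟨e, e1, e2, e3⟩ := lift_eqv hfree d hd hY hex (EV_D hc)
    have he : e ∈ S.N V K (n + 1) := by
      intro z hz
      obtain ⟨U, hU, h0⟩ := hN z hz
      exact ⟨U, hU, fun l hl hs => e3 l (h0 l hl hs)⟩
    have hc' : d.compLeft (List E) c' = c := funext c2
    have hm := (EV E ρ Y).sub_mem (EV_D c1) e1
    refine ⟨(c', D c' - e), ⟨c1, ?_⟩, hc', mem_EV.2 ⟨hm.1, fun l => ⟨(mem_EV.1 hm).2 l, ?_⟩⟩, ?_⟩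
    · change D c' - (D c' - e) ∈ S.N V K (n + 1)
      rwa [sub_sub_cancel]
    · change d (D c' l - e l) = 0
      rw [map_sub, e2, ← hc', D_compLeft]
      exact sub_self _
    · change Dl E V (D c' - e) ∈ S.N V K (n + 1 + 1)
      rw [map_sub, Dl_apply, Dl_apply, show D (D c') = 0 from funext (D_D c'), zero_sub]
      exact Submodule.neg_mem _ (S.N_D he)
  · rintro ⟨c', u⟩ ⟨c1, c2⟩ - ⟨k, k1, k2⟩
    have k3 : k ∈ EV E ρ Y := mem_EV.2 ⟨k1.1, fun l => ((mem_EV.1 k1).2 l).1⟩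
    refine ⟨c' - k, ⟨(EV E ρ Y).sub_mem c1 k3, ?_⟩, ?_⟩
    · have := (S.N V K (n + 1)).add_mem c2 k2
      change Dl E V (c' - k) ∈ S.N V K (n + 1)
      convert this using 1
      rw [map_sub]
      change D c' - D k = D c' - u + (u - D k)
      abel
    · funext l
      change d (c' l - k l) = d (c' l)
      rw [map_sub, ((mem_EV.1 k1).2 l).2, sub_zero]

theorem shift_two (hfree : ∀ (g : H) (a : E), g • a = a → g = 1) {ρ : Representation K2 H V}
    (d : V →ₗ[K2] V) (hd : ∀ g v, d (ρ g v) = ρ g (d v)) {Y Y' : Submodule K2 V}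
    (hY : ∀ g, ∀ v ∈ Y, ρ g v ∈ Y) (hex : ∀ v ∈ Y', ∃ u ∈ Y, d u = v)
    (hdY : ∀ v ∈ Y, d v ∈ Y') {K : Set M} {n a b : ℕ}
    (h : Le (S.Z (EV E ρ (Y ⊓ LinearMap.ker d)) K (n + 1))
      (S.B (EV E ρ (Y ⊓ LinearMap.ker d)) K (n + 1)) b)
    (h' : Le (S.Z (EV E ρ Y) K n) (S.B (EV E ρ Y) K n) a) :
    Le (S.Z (EV E ρ Y') K n) (S.B (EV E ρ Y') K n) (b + a) := by
  refine (S.shift_one hfree d hd hY hex h).step ?_
  refine Le.rel' ⊤ (d.compLeft (List E)) LinearMap.id ?_ ?_ h'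
  · rintro c ⟨-, c', h1, rfl⟩
    exact ⟨c', trivial, rfl, h1⟩
  · rintro c' - - ⟨k, k1, k2⟩
    refine ⟨d.compLeft (List E) k, mem_EV.2 ⟨⟨?_, fun g l => ?_⟩,
      fun l => hdY _ ((mem_EV.1 k1).2 l)⟩, ?_⟩
    · change d (k []) = 0
      rw [k1.1.1, map_zero]
    · change d (k (l.map (g • ·))) = ρ g (d (k l))
      rw [k1.1.2, hd]
    · rw [D_compLeft, ← map_sub]
      exact S.N_comp d k2

theorem shift_zero (hfree : ∀ (g : H) (a : E), g • a = a → g = 1) (h4 : S.P4) (a₀ : E)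
    {ρ : Representation K2 H V}
    (d : V →ₗ[K2] V) (hd : ∀ g v, d (ρ g v) = ρ g (d v)) {Y Y' : Submodule K2 V}
    (hY : ∀ g, ∀ v ∈ Y, ρ g v ∈ Y) (hex : ∀ v ∈ Y', ∃ u ∈ Y, d u = v)
    (hinv : ∀ v, (∀ g, ρ g v = v) → d v = 0) {b : ℕ}
    (h : Le (S.Z (EV E ρ (Y ⊓ LinearMap.ker d)) Set.univ 2)
      (S.B (EV E ρ (Y ⊓ LinearMap.ker d)) Set.univ 2) b)
    {I : Type} [AddCommGroup I] [Module K2 I] [FiniteDimensional K2 I] (ι : I →ₗ[K2] V)
    (hι : Function.Injective ι) (h1 : ∀ v, ι v ∈ Y') (h2 : ∀ g v, ρ g (ι v) = ι v) :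
    finrank K2 I ≤ b := by
  let φ : I →ₗ[K2] (List E → V) := (sing E V).comp ((LinearMap.pi fun _ => LinearMap.id).comp ι)
  have hφ : ∀ v x, φ v [x] = ι v := fun _ _ => rfl
  have := S.shift_one hfree d hd hY hex h I φ (fun v => by
    refine ⟨mem_EV.2 ⟨⟨rfl, fun g l => ?_⟩, fun l => ?_⟩, fun z _ => ⟨Set.univ, univ_mem,
      fun l hl _ => ?_⟩⟩
    · match l with
      | [] => exact (map_zero _).symm
      | [x] => exact (h2 g v).symm
      | _ :: _ :: _ => exact (map_zero _).symm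
    · match l with
      | [] => exact Y'.zero_mem
      | [x] => exact h1 v
      | _ :: _ :: _ => exact Y'.zero_mem
    · obtain ⟨x, y, rfl⟩ := List.length_eq_two.1 hl
      rw [Dl_apply, D_pair, hφ, hφ, two_self])
  have hb : ((S.Z (EV E ρ Y) Set.univ 1).map (d.compLeft (List E))).comap φ = ⊥ := by
    rw [eq_bot_iff]
    rintro v ⟨c, ⟨c1, c2⟩, c3⟩
    have con := h4 V (fun a => c [a]) (fun z => by
      obtain ⟨U, hU, h0⟩ := c2 z trivial
      refine ⟨U, hU, fun a b hab => ?_⟩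
      have := h0 [a, b] rfl (S.small_pair hab)
      rw [Dl_apply, D_pair, ← sub_eq_add2, sub_eq_zero] at this
      exact this.symm)
    have h5 : d (c [a₀]) = ι v := congrFun c3 [a₀]
    rw [hinv _ (fun g => by rw [← c1.1.2]; exact con _ _)] at h5
    exact hι (h5.symm.trans (map_zero ι).symm)
  rw [hb, finrank_bot] at this
  exact this

end Sys

end Pool.Agent.H816Z
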