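import Mathlib

set_option autoImplicit false

open Topology Filter

namespace Pool.Agent.H816Z

abbrev K2 := ZMod 2

/-- An abstract system of sheets over a space `M`. -/
structure Sys (M E : Type) [TopologicalSpace M] where
  p : E → M
  R : Set M → E → E → Prop
  symm : ∀ {U a b}, R U a b → R U b a
  trans : ∀ {U a b c}, R U a b → R U b c → R U a c
  mono : ∀ {U U' a b}, U ⊆ U' → R U a b → R U' a b
  mem : ∀ {U a b}, R U a b → p a ∈ U
  refl : ∀ {U a}, p a ∈ U → R U a a

namespace Sys
variable {M E : Type} [TopologicalSpace M] (S : Sys M E)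

/-- all points of the list lie in one sheet over `U` -/
def small (U : Set M) (l : List E) : Prop := ∀ a ∈ l, ∀ b ∈ l, S.R U a b

/-- `c` vanishes on small lists of length `n` near every point of `K` -/
def Null {V : Type} [Zero V] (K : Set M) (n : ℕ) (c : List E → V) : Prop :=
  ∀ z ∈ K, ∃ U ∈ 𝓝 z, ∀ l : List E, l.length = n → S.small U l → c l = 0

/-- `U` is open and the sheets over `U` map bijectively onto `U` -/
def Good (U : Set M) : Prop :=
  IsOpen U ∧ ∀ a, S.p a ∈ U → ∀ y ∈ U, ∃! b, S.p b = y ∧ S.R U a b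

end Sys

section PathSys
variable {M : Type} [TopologicalSpace M]

/-- the set of homotopy classes of paths starting at `x₀` -/
def PE (x₀ : M) : Type := Σ y : M, Path.Homotopic.Quotient x₀ y

/-- sheets of the path cover -/
def pathSys (x₀ : M) : Sys M (PE x₀) where
  p a := a.1
  R U a b := ∃ δ : Path a.1 b.1, Set.range δ ⊆ U ∧
    b.2 = a.2.trans (Path.Homotopic.Quotient.mk δ)
  symm := by
    rintro U a b ⟨δ, h1, h2⟩
    refine ⟨δ.symm, by rwa [Path.symm_range], ?_⟩
    rw [h2, Path.Homotopic.Quotient.mk_symm, Path.Homotopic.Quotient.trans_assoc,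
      Path.Homotopic.Quotient.trans_symm, Path.Homotopic.Quotient.trans_refl]
  trans := by
    rintro U a b c ⟨δ, h1, h2⟩ ⟨ε, h3, h4⟩
    refine ⟨δ.trans ε, by rw [Path.trans_range]; exact Set.union_subset h1 h3, ?_⟩
    rw [h4, h2, Path.Homotopic.Quotient.mk_trans, Path.Homotopic.Quotient.trans_assoc]
  mono := by
    rintro U U' a b h ⟨δ, h1, h2⟩
    exact ⟨δ, h1.trans h, h2⟩
  mem := by
    rintro U a b ⟨δ, h1, -⟩
    exact h1 ⟨0, δ.source⟩
  refl := by
    intro U a h
    refine ⟨Path.refl _, by rw [Path.refl_range]; exact Set.singleton_subset_iff.2 h, ?_⟩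
    rw [Path.Homotopic.Quotient.mk_refl, Path.Homotopic.Quotient.trans_refl]

noncomputable instance pathAction (x₀ : M) : MulAction (FundamentalGroup M x₀) (PE x₀) where
  smul g a := ⟨a.1, (FundamentalGroup.toPath g⁻¹).trans a.2⟩
  one_smul a := by
    change (⟨a.1, (FundamentalGroup.toPath 1⁻¹).trans a.2⟩ : PE x₀) = a
    rw [inv_one]
    change (⟨a.1, (Path.Homotopic.Quotient.refl x₀).trans a.2⟩ : PE x₀) = a
    rw [Path.Homotopic.Quotient.refl_trans]
    rfl
  mul_smul g h a := by
    change (⟨a.1, (FundamentalGroup.toPath (g * h)⁻¹).trans a.2⟩ : PE x₀) =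
      ⟨a.1, (FundamentalGroup.toPath g⁻¹).trans ((FundamentalGroup.toPath h⁻¹).trans a.2)⟩
    rw [mul_inv_rev, ← Path.Homotopic.Quotient.trans_assoc]
    rfl

theorem path_smul_def (x₀ : M) (g : FundamentalGroup M x₀) (a : PE x₀) :
    g • a = (⟨a.1, (FundamentalGroup.toPath g⁻¹).trans a.2⟩ : PE x₀) := rfl

theorem path_p_smul (x₀ : M) (g : FundamentalGroup M x₀) (a : PE x₀) :
    (pathSys x₀).p (g • a) = (pathSys x₀).p a := rfl

theorem path_R_smul (x₀ : M) (g : FundamentalGroup M x₀) (U : Set M) (a b : PE x₀)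
    (h : (pathSys x₀).R U a b) : (pathSys x₀).R U (g • a) (g • b) := by
  obtain ⟨δ, h1, h2⟩ := h
  refine ⟨δ, h1, ?_⟩
  change (FundamentalGroup.toPath g⁻¹).trans b.2 =
    ((FundamentalGroup.toPath g⁻¹).trans a.2).trans _
  rw [h2, Path.Homotopic.Quotient.trans_assoc]

theorem path_free (x₀ : M) (g : FundamentalGroup M x₀) (a : PE x₀) (h : g • a = a) : g = 1 := by
  obtain ⟨y, γ⟩ := a
  have h1 : (FundamentalGroup.toPath g⁻¹).trans γ = γ := by
    have := h
    rw [path_smul_def] at this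
    exact eq_of_heq (Sigma.mk.inj this).2
  have h2 := congrArg (fun q => Path.Homotopic.Quotient.trans q γ.symm) h1
  simp only [Path.Homotopic.Quotient.trans_assoc, Path.Homotopic.Quotient.trans_symm,
    Path.Homotopic.Quotient.trans_refl] at h2
  have h3 : g⁻¹ = 1 := h2
  exact inv_eq_one.1 h3

theorem path_transitive (x₀ : M) (a b : PE x₀) (h : (pathSys x₀).p a = (pathSys x₀).p b) :
    ∃ g : FundamentalGroup M x₀, g • a = b := by
  obtain ⟨y, γ⟩ := a
  obtain ⟨y', γ'⟩ := b
  have h' : y = y' := h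
  subst h'
  refine ⟨(FundamentalGroup.fromPath (γ'.trans γ.symm))⁻¹, ?_⟩
  rw [path_smul_def, inv_inv]
  change (⟨y, (γ'.trans γ.symm).trans γ⟩ : PE x₀) = _
  rw [Path.Homotopic.Quotient.trans_assoc, Path.Homotopic.Quotient.symm_trans,
    Path.Homotopic.Quotient.trans_refl]

theorem path_surj [PathConnectedSpace M] (x₀ : M) : Function.Surjective (pathSys x₀).p :=
  fun y => ⟨⟨y, Path.Homotopic.Quotient.mk (PathConnectedSpace.somePath x₀ y)⟩, rfl⟩

end PathSys

end Pool.Agent.H816Z
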