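import Pool.Agent.H816Z.Kos

set_option autoImplicit false

open Topology Filter Module

namespace Pool.Agent.H816Z

theorem final {M E G : Type} [TopologicalSpace M] [CompactSpace M] [T2Space M] (S : Sys M E)
    [Group G] [MulAction G E] (hK : S_KOS) (hA : Act S G)
    (htr : ∀ a b, S.p a = S.p b → ∃ g : G, g • a = b) (hs : Function.Surjective S.p)
    (hC : S.Charts) {N : ℕ} (φ : M → Fin N → ℝ) (hφ : Continuous φ) (hφ' : Function.Injective φ)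
    (h4 : S.P4) (h5 : S.P5) (a₀ : E) (Φ : E ≃ E) (ψ : G → G)
    (hΦ : ∀ g a, Φ (g • a) = ψ g • Φ a)
    (hN : ∀ (n : ℕ) (c : List E → K2), S.Null Set.univ n c ↔
      S.Null Set.univ n (fun l => c (l.map Φ)))
    (hG : ∀ r₀ : ℕ, ∃ (H : Subgroup G) (k r : ℕ) (θ : H →* Multiplicative (Fin r → ZMod 2))
      (T : Finset H), r₀ ≤ r ∧ Function.Surjective θ ∧
      (∀ h : H, θ h = 1 ↔ ∃ h' ∈ H, ψ^[k] h' = (h : G)) ∧
      (∀ h ∈ H, ψ^[k] h ∈ H) ∧
      H.index ≠ 0 ∧ H.index ≤ 9 * r ^ 2 ∧ T.card ≤ 3 * r + 2 ∧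
      ∀ χ : H →* Multiplicative (ZMod 2), (∀ x ∈ T, χ x = 1) → χ = 1) : False := by
  classical
  choose C hCf using fun n => S.rank_ind hA htr hs hC n Set.univ Set.univ isClosed_univ (by simp)
  obtain ⟨r₀, hr₀, hnum⟩ := numeric (nu (fun n => 9 * C n) N 3 + 5) N
  obtain ⟨H, k, r, θ, T, g1, g2, g3, g4, g5, g6, g7, g8⟩ := hG r₀
  have hAH : Act S H := ⟨fun g a => hA.p_smul g a, fun g U a b h => hA.R_smul g U a b h,
    fun g a h => Subtype.ext (hA.free g a h)⟩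
  have e1 : InvS E (Set.univ : Set H) = InvS E (H : Set G) := by
    ext c
    exact ⟨fun h => ⟨h.1, fun g hg l => h.2 ⟨g, hg⟩ trivial l⟩,
      fun h => ⟨h.1, fun g _ l => h.2 g g.2 l⟩⟩
  have e2 : InvS E {g : H | θ g = 1} = InvS E (ψ^[k] '' (H : Set G)) := by
    ext c
    refine ⟨fun h => ⟨h.1, ?_⟩, fun h => ⟨h.1, fun g hg l => h.2 g ((g3 g).1 hg) l⟩⟩
    rintro _ ⟨g, hg, rfl⟩ l
    exact h.2 ⟨_, g4 g hg⟩ ((g3 _).2 ⟨g, hg, rfl⟩) l
  have : H.FiniteIndex := ⟨g5⟩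
  have : Fintype (G ⧸ H) := Fintype.ofFinite _
  have e3 : finrank K2 ((G ⧸ H) → K2) = H.index := by
    rw [finrank_fintype_fun_eq_card, Subgroup.index_eq_card, Nat.card_eq_fintype_card]
  have := S.count θ hK hAH g2 h4 a₀ (hr₀.trans g1) (fun n => 9 * C n) N (fun n hn => ?_)
    (fun n => ?_) ?_
  · exact absurd this (not_le.2 (hnum r g1))
  · rw [e1]
    obtain ⟨n, rfl⟩ : ∃ n', n = n' + 2 := ⟨n - 2, by omega⟩
    exact S.shap_up hA H (Le.of_le (S.van_top hA hC.lg φ hφ hφ' n (by omega)) 0)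
  · rw [e2]
    refine S.transport_iter Φ ψ hΦ hN _ (S.shap_up hA H ((hCf n _ _).weaken ?_)) k
    rw [e3]
    calc C n * H.index ≤ C n * (9 * r ^ 2) := Nat.mul_le_mul_left _ g6
      _ = _ := by ring
  · rw [e2]
    refine S.transport_iter Φ ψ hΦ hN _ ((S.le_one hA h4 h5 a₀ H T g8).weaken ?_) k
    omega

end Pool.Agent.H816Z
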