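import Pool.Agent.H816Z.Count
import Pool.Agent.H816Z.Spec

set_option autoImplicit false

open Topology Filter Module

namespace Pool.Agent.H816Z

variable {M E : Type} [TopologicalSpace M]

/-- functions of a monomial and a point -/
abbrev KV (r : ℕ) : Type := (Fin r → ℕ) → (Fin r → ZMod 2) → ZMod 2

/-- the Koszul differential as a linear map -/
def kosL (r : ℕ) : KV r →ₗ[K2] KV r where
  toFun := kos r
  map_add' v w := by
    funext m p
    simp only [kos, Pi.add_apply, ← Finset.sum_add_distrib]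
    refine Finset.sum_congr rfl fun i _ => ?_
    split_ifs <;> ring
  map_smul' a v := by
    funext m p
    simp only [kos, Pi.smul_apply, smul_eq_mul, RingHom.id_apply, Finset.mul_sum]
    refine Finset.sum_congr rfl fun i _ => ?_
    split_ifs <;> ring

/-- the homogeneous part -/
def Gr (r j : ℕ) : Submodule K2 (KV r) where
  carrier := {w | deg r j w}
  add_mem' := fun ha hb m hm => by rw [Pi.add_apply, ha m hm, hb m hm, add_zero]
  zero_mem' := fun _ _ => rfl
  smul_mem' := fun a _ hb m hm => by rw [Pi.smul_apply, hb m hm, smul_zero]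

/-- translation action -/
def kρ {H : Type} [Group H] {r : ℕ} (θ : H →* Multiplicative (Fin r → ZMod 2)) :
    Representation K2 H (KV r) where
  toFun g :=
    { toFun := fun w m p => w m (p + Multiplicative.toAdd (θ g))
      map_add' := fun _ _ => rfl
      map_smul' := fun _ _ => rfl }
  map_one' := by ext w m p; simp
  map_mul' g h := by ext w m p; simp [add_assoc]

theorem kρ_apply {H : Type} [Group H] {r : ℕ} (θ : H →* Multiplicative (Fin r → ZMod 2))
    (g : H) (w : KV r) (m : Fin r → ℕ) (p : Fin r → ZMod 2) :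
    kρ θ g w m p = w m (p + Multiplicative.toAdd (θ g)) := rfl

theorem kos_comm {H : Type} [Group H] {r : ℕ} (θ : H →* Multiplicative (Fin r → ZMod 2))
    (g : H) (w : KV r) : kosL r (kρ θ g w) = kρ θ g (kosL r w) := by
  funext m p
  change kos r (kρ θ g w) m p = kos r w m _
  simp only [kos, kρ_apply, add_right_comm p]

theorem Gr_inv {H : Type} [Group H] {r : ℕ} (θ : H →* Multiplicative (Fin r → ZMod 2))
    (j : ℕ) (g : H) (w : KV r) (hw : w ∈ Gr r j) : kρ θ g w ∈ Gr r j := by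
  intro m hm
  funext p
  rw [kρ_apply, hw m hm]; rfl

theorem kos_const {r : ℕ} (w : KV r) (h : ∀ m p, w m p = w m 0) : kosL r w = 0 := by
  funext m p
  change kos r w m p = 0
  refine Finset.sum_eq_zero fun i _ => ?_
  rw [h _ (p + _), h _ p, two_self, ite_self]

/-- evaluation at a monomial and the origin -/
def evm (E : Type) {r : ℕ} (m : Fin r → ℕ) : (List E → KV r) →ₗ[K2] (List E → K2) where
  toFun c l := c l m 0
  map_add' _ _ := rfl
  map_smul' _ _ := rfl

theorem D_eval2 {r : ℕ} (c : List E → KV r) (l : List E) (m : Fin r → ℕ) (p : Fin r → ZMod 2) :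
    D c l m p = D (fun l => c l m p) l := by rw [D_eval, D_eval]

namespace Sys
variable (S : Sys M E) {H : Type} [Group H] [MulAction H E] {r : ℕ}
  (θ : H →* Multiplicative (Fin r → ZMod 2))

theorem evm_N {K : Set M} {n : ℕ} (m : Fin r → ℕ) {c : List E → KV r}
    (hc : D c ∈ S.N (KV r) K n) : D (evm E m c) ∈ S.N K2 K n := by
  intro z hz
  obtain ⟨U, hU, h0⟩ := hc z hz
  refine ⟨U, hU, fun l hl hs => ?_⟩
  exact (D_eval2 c l m 0).symm.trans (by rw [h0 l hl hs]; rfl)

theorem bound_FA (hA : Act S H) (hθ : Function.Surjective θ) {K : Set M} {n β : ℕ} (j : ℕ)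
    (h : Le (S.Z (InvS E {g : H | θ g = 1}) K n) (S.B (InvS E {g : H | θ g = 1}) K n) β) :
    Le (S.Z (EV E (kρ θ) (Gr r j)) K n) (S.B (EV E (kρ θ) (Gr r j)) K n)
      ((Finset.piAntidiag (Finset.univ : Finset (Fin r)) j).card * β) := by
  classical
  set s := Finset.piAntidiag (Finset.univ : Finset (Fin r)) j with hs
  have hms : ∀ m, m ∈ s ↔ ∑ i, m i = j := fun m => by simp [hs]
  refine (Le.finset s (S := S.Z (EV E (kρ θ) (Gr r j)) K n)
    (fun m => (S.B (InvS E {g : H | θ g = 1}) K n).comap (evm E m))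
    (fun m _ => Le.map (evm E m) ?_ (fun _ _ h => h) h)).mono le_rfl ?_
  · rintro c ⟨hc, hN⟩
    refine ⟨⟨by change c [] m 0 = 0; rw [hc.1.1]; rfl, fun g hg l => ?_⟩, S.evm_N m hN⟩
    change c (l.map (g • ·)) m 0 = c l m 0
    rw [hc.1.2, kρ_apply, show θ g = 1 from hg]; simp
  · rintro c ⟨hc, -⟩ hB
    simp only [Submodule.mem_iInf] at hB
    have hB' : ∀ m, ∃ k ∈ InvS E {g : H | θ g = 1}, (m ∈ s → evm E m c - D k ∈ S.N K2 K n) ∧
        (m ∉ s → k = 0) := by
      intro m
      by_cases hm : m ∈ s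
      · obtain ⟨k, k1, k2⟩ := hB m hm
        exact ⟨k, k1, fun _ => k2, fun h => (h hm).elim⟩
      · exact ⟨0, Submodule.zero_mem _, fun h => (hm h).elim, fun _ => rfl⟩
    choose k k1 k2 k3 using hB'
    choose γ hγ using fun p : Fin r → ZMod 2 => hθ (Multiplicative.ofAdd p)
    have hk : (fun (l : List E) m p => k m (l.map (γ p • ·))) ∈ EV E (kρ θ) (Gr r j) := by
      refine mem_EV.2 ⟨⟨funext fun m => funext fun p => (k1 m).1, fun g l => ?_⟩,
        fun l m hm => ?_⟩
      · funext m p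
        rw [kρ_apply]
        beta_reduce
        rw [map_smul_smul]
        have e : γ p * g = (γ p * g * (γ (p + Multiplicative.toAdd (θ g)))⁻¹) *
            γ (p + Multiplicative.toAdd (θ g)) := by group
        rw [e, ← map_smul_smul]
        refine (k1 m).2 _ ?_ _
        change θ _ = 1
        rw [map_mul, map_mul, map_inv, hγ, hγ, mul_inv_eq_one]; rfl
      · funext p
        change k m _ = 0
        rw [k3 m (fun h => hm ((hms m).1 h))]; rfl
    refine ⟨_, hk, fun z hz => ?_⟩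
    have hU : ∀ m, ∃ U ∈ 𝓝 z, m ∈ s → ∀ l : List E, l.length = n → S.small U l →
        (evm E m c - D (k m)) l = 0 := by
      intro m
      by_cases hm : m ∈ s
      · obtain ⟨U, hU, h0⟩ := k2 m hm z hz
        exact ⟨U, hU, fun _ => h0⟩
      · exact ⟨Set.univ, univ_mem, fun h => (hm h).elim⟩
    choose U U1 U2 using hU
    refine ⟨⋂ m ∈ s, U m, (biInter_finset_mem s).2 fun m _ => U1 m, fun l hl hsm => ?_⟩
    funext m
    by_cases hm : m ∈ s
    · funext p
      have := U2 m hm (l.map (γ p • ·)) (by simpa using hl)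
        (S.small_smul hA _ (S.small_mono (Set.biInter_subset_of_mem hm) hsm))
      rw [Pi.sub_apply, Pi.sub_apply, Pi.sub_apply, D_eval2, D_map (γ p • ·) (k m) l]
      have e : c l m p = evm E m c (l.map (γ p • ·)) := by
        change _ = c (l.map (γ p • ·)) m 0
        rw [hc.1.2, kρ_apply, hγ]; simp
      rw [e]; exact this
    · exact ((Gr r j).sub_mem ((mem_EV.1 hc).2 l) (D_mem _ _ (mem_EV.1 hk).2 l)) m
        fun h => hm ((hms m).2 h)

theorem bound_base (hK : S_KOS) {K : Set M} {n β : ℕ}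
    (h : Le (S.Z (InvS E (Set.univ : Set H)) K n) (S.B (InvS E (Set.univ : Set H)) K n) β) :
    Le (S.Z (EV E (kρ θ) (Gr r 0 ⊓ LinearMap.ker (kosL r))) K n)
      (S.B (EV E (kρ θ) (Gr r 0 ⊓ LinearMap.ker (kosL r))) K n) β := by
  have key : ∀ w ∈ Gr r 0 ⊓ LinearMap.ker (kosL r), ∀ m p, w m p = w m 0 :=
    fun w hw => (hK r).2.2.2.1 w hw.1 hw.2
  refine Le.map (evm E 0) ?_ ?_ h
  · rintro c ⟨hc, hN⟩
    refine ⟨⟨by change c [] 0 0 = 0; rw [hc.1.1]; rfl, fun g _ l => ?_⟩, S.evm_N 0 hN⟩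
    change c (l.map (g • ·)) 0 0 = c l 0 0
    rw [hc.1.2, kρ_apply, key _ ((mem_EV.1 hc).2 l)]
  · rintro c ⟨hc, -⟩ ⟨k, k1, k2⟩
    have hk : (fun (l : List E) (m : Fin r → ℕ) (_ : Fin r → ZMod 2) =>
        if m = 0 then k l else 0) ∈ EV E (kρ θ) (Gr r 0 ⊓ LinearMap.ker (kosL r)) := by
      refine mem_EV.2 ⟨⟨?_, fun g l => ?_⟩, fun l => ⟨fun m hm => ?_, kos_const _ fun _ _ => rfl⟩⟩
      · funext m p
        simp [k1.1]
      · funext m p
        rw [kρ_apply]
        beta_reduce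
        rw [k1.2 g trivial]
      · funext p
        have : m ≠ 0 := by rintro rfl; simp at hm
        simp [this]
    refine ⟨_, hk, fun z hz => ?_⟩
    obtain ⟨U, hU, h0⟩ := k2 z hz
    refine ⟨U, hU, fun l hl hs => ?_⟩
    funext m
    by_cases hm : m = 0
    · funext p
      subst hm
      rw [Pi.sub_apply, Pi.sub_apply, Pi.sub_apply, D_eval2, key _ ((mem_EV.1 hc).2 l)]
      simp only [if_true]
      exact h0 l hl hs
    · refine ((Gr r 0).sub_mem ((mem_EV.1 hc).2 l).1 (D_mem _ _ (mem_EV.1 hk).2 l).1) m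
        fun h => hm ?_
      funext i
      exact (Finset.sum_eq_zero_iff.1 h) i (Finset.mem_univ i)

end Sys

/-- the constants of the counting argument -/
def nu (C : ℕ → ℕ) : ℕ → ℕ → ℕ
  | 0, _ => 0
  | j + 1, n => nu C j (n + 1) + C n

theorem Sys.count (S : Sys M E) {H : Type} [Group H] [MulAction H E] {r : ℕ}
    (θ : H →* Multiplicative (Fin r → ZMod 2)) (hK : S_KOS) (hA : Act S H)
    (hθ : Function.Surjective θ) (h4 : S.P4) (a₀ : E) (hr : 1 ≤ r) (C : ℕ → ℕ) (J : ℕ)
    (hv : ∀ n, J + 3 ≤ n → Le (S.Z (InvS E (Set.univ : Set H)) Set.univ n)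
      (S.B (InvS E (Set.univ : Set H)) Set.univ n) 0)
    (hb : ∀ n, Le (S.Z (InvS E {g : H | θ g = 1}) Set.univ n)
      (S.B (InvS E {g : H | θ g = 1}) Set.univ n) (C n * r ^ 2))
    (h2 : Le (S.Z (InvS E {g : H | θ g = 1}) Set.univ 2)
      (S.B (InvS E {g : H | θ g = 1}) Set.univ 2) (5 * r)) :
    r.choose (J + 2) ≤ (nu C J 3 + 5) * r ^ (J + 1) := by
  classical
  obtain ⟨k1, k2, k3, -, k5, k6⟩ := hK r
  have hex : ∀ j, ∀ v ∈ Gr r (j + 1) ⊓ LinearMap.ker (kosL r), ∃ u ∈ Gr r j, kosL r u = v :=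
    fun j v hv => k3 j v hv.1 hv.2
  have hdY : ∀ j, ∀ v ∈ Gr r j, kosL r v ∈ Gr r (j + 1) ⊓ LinearMap.ker (kosL r) :=
    fun j v hv => ⟨k2 j v hv, k1 v⟩
  have main : ∀ j n, J + 3 ≤ n + j →
      Le (S.Z (EV E (kρ θ) (Gr r j ⊓ LinearMap.ker (kosL r))) Set.univ n)
        (S.B (EV E (kρ θ) (Gr r j ⊓ LinearMap.ker (kosL r))) Set.univ n)
        (nu C j n * r ^ (j + 1)) := by
    intro j
    induction j with
    | zero =>
      intro n hn
      exact (S.bound_base θ hK (hv n hn)).weaken (Nat.zero_le _)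
    | succ j ih =>
      intro n hn
      refine (S.shift_two hA.free (kosL r) (kos_comm θ) (Gr_inv θ j) (hex j) (hdY j)
        (ih (n + 1) (by omega)) (S.bound_FA θ hA hθ j (hb n))).weaken ?_
      rw [nu, add_mul]
      refine add_le_add (Nat.mul_le_mul_left _ (Nat.pow_le_pow_right hr (by omega))) ?_
      calc _ ≤ r ^ j * (C n * r ^ 2) := Nat.mul_le_mul_right _ (k5 j)
        _ = _ := by ring
  have m2 := (S.shift_two hA.free (kosL r) (kos_comm θ) (Gr_inv θ J) (hex J) (hdY J)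
    (main J 3 (by omega)) (S.bound_FA θ hA hθ J h2)).weaken
    (m' := (nu C J 3 + 5) * r ^ (J + 1)) (by
      rw [add_mul]
      refine add_le_add le_rfl ?_
      calc _ ≤ r ^ J * (5 * r) := Nat.mul_le_mul_right _ (k5 J)
        _ = _ := by ring)
  set s := Finset.piAntidiag (Finset.univ : Finset (Fin r)) (J + 2) with hs
  let ι : (s → K2) →ₗ[K2] KV r :=
    { toFun := fun v m _ => if h : m ∈ s then v ⟨m, h⟩ else 0
      map_add' := fun v w => by funext m p; by_cases h : m ∈ s <;> simp [h]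
      map_smul' := fun a v => by funext m p; by_cases h : m ∈ s <;> simp [h] }
  have := S.shift_zero hA.free h4 a₀ (kosL r) (kos_comm θ) (Gr_inv θ (J + 1)) (hex (J + 1))
    (fun v hv => kos_const v fun m p => by
      obtain ⟨g, hg⟩ := hθ (Multiplicative.ofAdd p)
      conv_rhs => rw [← hv g, kρ_apply, hg]
      simp) m2 ι (fun v w h => by
      funext m
      have := congrFun (congrFun h m.1) 0
      simpa [ι, m.2] using this) (fun v => ⟨fun m hm => by
      funext p
      have : m ∉ s := fun h => hm (by simpa [hs] using h)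
      simp [ι, this], kos_const _ fun _ _ => rfl⟩) (fun g v => rfl)
  rw [finrank_fintype_fun_eq_card, Fintype.card_coe] at this
  exact (k6 _).trans this

theorem numeric (C J : ℕ) : ∃ r₀, 1 ≤ r₀ ∧ ∀ r, r₀ ≤ r → C * r ^ (J + 1) < r.choose (J + 2) := by
  refine ⟨2 ^ (J + 2) * (J + 2).factorial * C + 2 * (J + 2) + 1, by omega, fun r hr => ?_⟩
  by_contra hcon
  rw [not_lt] at hcon
  have h1 := Nat.pow_sub_le_descFactorial r (J + 2)
  rw [Nat.descFactorial_eq_factorial_mul_choose] at h1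
  have h2 : r ≤ 2 * (r + 1 - (J + 2)) := by omega
  have h3 : r ^ (J + 2) ≤ 2 ^ (J + 2) * ((J + 2).factorial * (C * r ^ (J + 1))) :=
    calc r ^ (J + 2) ≤ (2 * (r + 1 - (J + 2))) ^ (J + 2) := Nat.pow_le_pow_left h2 _
      _ = 2 ^ (J + 2) * (r + 1 - (J + 2)) ^ (J + 2) := mul_pow _ _ _
      _ ≤ _ := Nat.mul_le_mul_left _ (h1.trans (Nat.mul_le_mul_left _ hcon))
  have h4 : r * r ^ (J + 1) ≤ (2 ^ (J + 2) * (J + 2).factorial * C) * r ^ (J + 1) := by
    calc r * r ^ (J + 1) = r ^ (J + 2) := by ring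
      _ ≤ _ := h3
      _ = _ := by ring
  have h5 := Nat.le_of_mul_le_mul_right h4 (Nat.pow_pos (by omega))
  omega

end Pool.Agent.H816Z
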