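import Pool.Agent.H816Z.Core

set_option autoImplicit false

open Topology Filter Module

namespace Pool.Agent.H816Z

variable {M E : Type} [TopologicalSpace M]

namespace Sys
variable (S : Sys M E) {V : Type} [AddCommGroup V] [Module K2 V]
  {H : Type} [Group H] [MulAction H E] {ρ : Representation K2 H V}

/-- good neighbourhoods form a basis -/
def LG : Prop := ∀ (z : M) (W : Set M), W ∈ 𝓝 z → ∃ U ⊆ W, z ∈ U ∧ S.Good U

open Classical in
/-- the cone over the point `z` inside the good set `U` -/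
noncomputable def cone (U : Set M) (z : M) (c : List E → V) : List E → V
  | [] => 0
  | x :: l => if h : ∃ b, S.p b = z ∧ S.R U x b then c (h.choose :: x :: l) else 0

omit [Module K2 V] in
theorem cone_eq {U : Set M} (hU : S.Good U) {z : M} (hz : z ∈ U) (c : List E → V) {x b : E}
    (l : List E) (h1 : S.p b = z) (h2 : S.R U x b) :
    S.cone U z c (x :: l) = c (b :: x :: l) := by
  have h : ∃ b, S.p b = z ∧ S.R U x b := ⟨b, h1, h2⟩
  have := (hU.2 x (S.mem h2) z hz).unique h.choose_spec ⟨h1, h2⟩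
  simp only [cone, dif_pos h, this]

theorem cone_Eqv (hA : Act S H) {U : Set M} (hU : S.Good U) {z : M} (hz : z ∈ U)
    {c : List E → V} (hc : c ∈ Eqv E ρ) : S.cone U z c ∈ Eqv E ρ := by
  refine ⟨rfl, fun g l => ?_⟩
  cases l with
  | nil => simp [cone]
  | cons x l =>
    by_cases h : ∃ b, S.p b = z ∧ S.R U x b
    · obtain ⟨b, h1, h2⟩ := h
      rw [S.cone_eq hU hz c l h1 h2, List.map_cons,
        S.cone_eq hU hz c _ ((hA.p_smul g b).trans h1) (hA.R_smul g U _ _ h2)]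
      exact hc.2 g (b :: x :: l)
    · have h' : ¬ ∃ b, S.p b = z ∧ S.R U (g • x) b := by
        rintro ⟨b, h1, h2⟩
        refine h ⟨g⁻¹ • b, (hA.p_smul _ b).trans h1, ?_⟩
        simpa using hA.R_smul g⁻¹ U _ _ h2
      simp [cone, dif_neg h, dif_neg h']

theorem van_point (hA : Act S H) (hG : S.LG) {K : Set M} (hK : K.Subsingleton) (n : ℕ) :
    S.Z (Eqv E ρ) K (n + 2) ≤ S.B (Eqv E ρ) K (n + 2) := by
  rcases hK.eq_empty_or_singleton with rfl | ⟨z, rfl⟩
  · intro c _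
    exact S.N_le_B fun z hz => hz.elim
  rintro c ⟨hc, hN⟩
  obtain ⟨W, hW, h0⟩ := hN z rfl
  obtain ⟨U, hUW, hz, hU⟩ := hG z W hW
  refine ⟨S.cone U z c, S.cone_Eqv hA hU hz hc, ?_⟩
  intro z' hz'
  rw [show z' = z from hz']
  refine ⟨U, hU.1.mem_nhds hz, fun l hl hs => ?_⟩
  obtain ⟨x, l', rfl⟩ : ∃ x l', l = x :: l' := by
    cases l with
    | nil => simp at hl
    | cons x l' => exact ⟨x, l', rfl⟩
  have hx : S.R U x x := hs x (by simp) x (by simp)
  obtain ⟨b, ⟨h1, h2⟩, -⟩ := hU.2 x (S.mem hx) _ hz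
  have hb : ∀ y ∈ x :: l', S.R U y b := fun y hy => S.trans (hs y hy x (by simp)) h2
  have e1 : D c (b :: x :: l') = 0 := by
    refine h0 (b :: x :: l') (by simp only [List.length_cons] at hl ⊢; omega)
      (S.small_mono hUW ?_)
    intro y hy y' hy'
    have a1 : S.R U y b := by
      rcases List.mem_cons.1 hy with rfl | hy
      · exact S.trans (S.symm h2) h2
      · exact hb y hy
    have a2 : S.R U y' b := by
      rcases List.mem_cons.1 hy' with rfl | hy'
      · exact S.trans (S.symm h2) h2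
      · exact hb y' hy'
    exact S.trans a1 (S.symm a2)
  have e2 : D (S.cone U z c) (x :: l') = D (fun l => c (b :: l)) (x :: l') := by
    refine D_congr _ _ _ fun l'' hsub hlen => ?_
    cases l'' with
    | nil => simp only [List.length_cons, List.length_nil] at hlen hl; omega
    | cons y l'' => exact S.cone_eq hU hz c _ h1 (hb y (hsub.subset (by simp)))
  rw [Pi.sub_apply, e2, sub_eq_add2, ← D_cons, e1]

open Classical in
/-- locally constant sections over a good set -/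
noncomputable def eps (ρ : Representation K2 H V) (U : Set M) (a₀ : E) :
    V →ₗ[K2] (List E → V) where
  toFun v l := match l with
    | [x] => if h : ∃ g : H, S.R U (g • a₀) x then ρ h.choose v else 0
    | _ => 0
  map_add' v w := by
    funext l
    match l with
    | [] => simp
    | [x] => by_cases h : ∃ g : H, S.R U (g • a₀) x <;> simp [h]
    | _ :: _ :: _ => simp
  map_smul' a v := by
    funext l
    match l with
    | [] => simp
    | [x] => by_cases h : ∃ g : H, S.R U (g • a₀) x <;> simp [h]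
    | _ :: _ :: _ => simp

theorem eps_eq (hA : Act S H) {U : Set M} (hU : S.Good U) {a₀ x : E} {g : H}
    (h : S.R U (g • a₀) x) (v : V) : S.eps ρ U a₀ v [x] = ρ g v := by
  have h' : ∃ g : H, S.R U (g • a₀) x := ⟨g, h⟩
  have h1 : S.p a₀ ∈ U := hA.p_smul g a₀ ▸ S.mem h
  have h2 := (hU.2 x (S.mem (S.symm h)) _ h1).unique
    ⟨hA.p_smul h'.choose a₀, S.symm h'.choose_spec⟩ ⟨hA.p_smul g a₀, S.symm h⟩
  have h3 : h'.choose = g := by
    have := hA.free (g⁻¹ * h'.choose) a₀ (by rw [mul_smul, h2, inv_smul_smul])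
    exact (inv_mul_eq_one.1 this).symm
  simp only [eps, LinearMap.coe_mk, AddHom.coe_mk, dif_pos h', h3]

theorem eps_not {U : Set M} {a₀ x : E} (h : ¬ ∃ g : H, S.R U (g • a₀) x) (v : V) :
    S.eps ρ U a₀ v [x] = 0 := by
  simp only [eps, LinearMap.coe_mk, AddHom.coe_mk, dif_neg h]

theorem eps_Eqv (hA : Act S H) {U : Set M} (hU : S.Good U) (a₀ : E) (v : V) :
    S.eps ρ U a₀ v ∈ Eqv E ρ := by
  refine ⟨rfl, fun g l => ?_⟩
  match l with
  | [] => simp [eps]
  | [x] =>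
    by_cases h : ∃ g : H, S.R U (g • a₀) x
    · obtain ⟨g', h⟩ := h
      have h2 : S.R U ((g * g') • a₀) (g • x) := by rw [mul_smul]; exact hA.R_smul g U _ _ h
      rw [S.eps_eq hA hU h, List.map_singleton, S.eps_eq hA hU h2, map_mul]; rfl
    · have h' : ¬ ∃ g' : H, S.R U (g' • a₀) (g • x) := by
        rintro ⟨g', h1⟩
        refine h ⟨g⁻¹ * g', ?_⟩
        simpa [mul_smul] using hA.R_smul g⁻¹ U _ _ h1
      rw [List.map_singleton, S.eps_not h, S.eps_not h', map_zero]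
  | _ :: _ :: _ => simp [eps]

theorem eps_Z (hA : Act S H) {U : Set M} (hU : S.Good U) (a₀ : E) (v : V) {K : Set M}
    (hK : K ⊆ U) : S.eps ρ U a₀ v ∈ S.Z (Eqv E ρ) K 1 := by
  refine ⟨S.eps_Eqv hA hU a₀ v, fun z hz => ⟨U, hU.1.mem_nhds (hK hz), fun l hl hs => ?_⟩⟩
  obtain ⟨x, y, rfl⟩ := List.length_eq_two.1 hl
  have hxy : S.R U x y := hs x (by simp) y (by simp)
  rw [Dl_apply, D_pair]
  by_cases h : ∃ g : H, S.R U (g • a₀) x
  · obtain ⟨g, h⟩ := h
    rw [S.eps_eq hA hU h, S.eps_eq hA hU (S.trans h hxy), two_self]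
  · have h' : ¬ ∃ g : H, S.R U (g • a₀) y := fun ⟨g, h1⟩ => h ⟨g, S.trans h1 (S.symm hxy)⟩
    rw [S.eps_not h, S.eps_not h', add_zero]

theorem h_zero (hA : Act S H) (htr : ∀ a b, S.p a = S.p b → ∃ g : H, g • a = b) (hG : S.LG)
    {U : Set M} (hU : S.Good U) {a₀ : E} (ha₀ : S.p a₀ ∈ U) {K : Set M} (hK : K ⊆ U)
    (hc : IsPreconnected K) {c : List E → V} (hZ : c ∈ S.Z (Eqv E ρ) K 1) :
    ∃ v, c - S.eps ρ U a₀ v ∈ S.N V K 1 := by
  rcases K.eq_empty_or_nonempty with rfl | ⟨z₀, hz₀⟩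
  · exact ⟨0, fun z hz => hz.elim⟩
  have ex : ∀ y, ∃ b, y ∈ U → S.p b = y ∧ S.R U a₀ b := by
    intro y
    by_cases hy : y ∈ U
    · obtain ⟨b, hb, -⟩ := hU.2 a₀ ha₀ y hy
      exact ⟨b, fun _ => hb⟩
    · exact ⟨a₀, fun h => (hy h).elim⟩
  choose σ hσ using ex
  have loc : ∀ z ∈ K, ∃ U' ∈ 𝓝 z, U' ⊆ U ∧ ∀ y ∈ U', c [σ y] = c [σ z] := by
    intro z hz
    obtain ⟨W, hW, h0⟩ := hZ.2 z hz
    obtain ⟨U', h1, h2, h3⟩ := hG z (W ∩ U) (inter_mem hW (hU.1.mem_nhds (hK hz)))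
    have hU'U : U' ⊆ U := h1.trans Set.inter_subset_right
    refine ⟨U', h3.1.mem_nhds h2, hU'U, fun y hy => ?_⟩
    obtain ⟨b, ⟨b1, b2⟩, -⟩ := h3.2 (σ z) (by rw [(hσ z (hK hz)).1]; exact h2) y hy
    have hb : b = σ y := (hU.2 a₀ ha₀ y (hU'U hy)).unique
      ⟨b1, S.trans (hσ z (hK hz)).2 (S.mono hU'U b2)⟩ (hσ y (hU'U hy))
    have := h0 [σ z, b] rfl (S.small_mono (h1.trans Set.inter_subset_left) (by
      intro x hx x' hx'
      simp only [List.mem_cons, List.not_mem_nil, or_false] at hx hx'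
      rcases hx with rfl | rfl <;> rcases hx' with rfl | rfl
      exacts [S.trans b2 (S.symm b2), b2, S.symm b2, S.trans (S.symm b2) b2]))
    rw [Dl_apply, D_pair, ← sub_eq_add2, sub_eq_zero, hb] at this
    exact this
  have all : ∀ z ∈ K, c [σ z₀] = c [σ z] := by
    intro z hz
    refine hc.induction₂' (fun a b => c [σ a] = c [σ b]) ?_
      (fun a b d _ _ _ h1 h2 => h1.trans h2) hz₀ hz
    intro x hx
    obtain ⟨U', h1, -, h2⟩ := loc x hx
    filter_upwards [mem_nhdsWithin_of_mem_nhds h1] with y hy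
    exact ⟨(h2 y hy).symm, h2 y hy⟩
  refine ⟨c [σ z₀], fun z hz => ?_⟩
  obtain ⟨U', h1, h2, h3⟩ := loc z hz
  refine ⟨U', h1, fun l hl hs => ?_⟩
  obtain ⟨x, rfl⟩ := List.length_eq_one_iff.1 hl
  have hx : S.p x ∈ U' := S.mem (hs x (by simp) x (by simp))
  obtain ⟨g, hg⟩ := htr (σ (S.p x)) x (hσ _ (h2 hx)).1
  have h4 : S.R U (g • a₀) x := by
    have := hA.R_smul g U _ _ (hσ _ (h2 hx)).2
    rwa [hg] at this
  rw [Pi.sub_apply, S.eps_eq hA hU h4, all z hz, ← h3 _ hx, ← hZ.1.2 g, List.map_singleton, hg,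
    sub_self]

theorem slice_ind [NormalSpace M] [T2Space M] (hA : Act S H) (hG : S.LG) {N : ℕ}
    (φ : M → Fin N → ℝ) (𝒞 : Set (Set M))
    (h𝒞 : ∀ K ∈ 𝒞, IsCompact K ∧ ContinuousOn φ K ∧ Set.InjOn φ K ∧
      ∀ i τ, K ∩ (fun z => φ z i) ⁻¹' {τ} ∈ 𝒞) (m : ℕ) :
    ∀ K ∈ 𝒞, (∀ i : Fin N, m ≤ i.1 → ∀ z ∈ K, ∀ z' ∈ K, φ z i = φ z' i) → ∀ n,
      (m ≤ n ∨ ∀ K' ∈ 𝒞, ∀ K'' ∈ 𝒞, K' ⊆ K'' → S.Ext (Eqv E ρ) K' K'' 1) →
      S.Z (Eqv E ρ) K (n + 2) ≤ S.B (Eqv E ρ) K (n + 2) := by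
  induction m with
  | zero =>
    intro K hK h1 n _
    refine S.van_point hA hG (fun z hz z' hz' => (h𝒞 K hK).2.2.1 hz hz' ?_) n
    exact funext fun i => h1 i (Nat.zero_le _) z hz z' hz'
  | succ m ih =>
    intro K hK h1 n hn
    by_cases hm : m < N
    swap
    · refine ih K hK (fun i hi => ?_) n (hn.imp_left fun h => by omega)
      have := i.2
      omega
    obtain ⟨k1, k2, k3, k4⟩ := h𝒞 K hK
    have hsl : ∀ τ, ∀ i : Fin N, m ≤ i.1 → ∀ z ∈ K ∩ (fun z => φ z ⟨m, hm⟩) ⁻¹' {τ},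
        ∀ z' ∈ K ∩ (fun z => φ z ⟨m, hm⟩) ⁻¹' {τ}, φ z i = φ z' i := by
      intro τ i hi z hz z' hz'
      rcases hi.eq_or_lt with h | h
      · have : i = ⟨m, hm⟩ := Fin.ext h.symm
        rw [this]
        exact hz.2.trans hz'.2.symm
      · exact h1 i h z hz.1 z' hz'.1
    intro c hc
    refine S.slice hA k1 (t := fun z => φ z ⟨m, hm⟩)
      ((continuous_apply _).comp_continuousOn k2) (fun τ => ?_) (fun τ => ?_)
    · exact ih _ (k4 _ τ) (hsl τ) n (hn.imp_left fun h => by omega)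
        (S.Z_mono Set.inter_subset_left hc)
    · cases n with
      | zero =>
        rcases hn with hn | hn
        · omega
        · exact hn _ (k4 _ τ) K hK Set.inter_subset_left
      | succ n =>
        exact S.ext_of_van (ih _ (k4 _ τ) (hsl τ) n (hn.imp_left fun h => by omega))

theorem van_top [CompactSpace M] [T2Space M] (hA : Act S H) (hG : S.LG) {N : ℕ}
    (φ : M → Fin N → ℝ) (h1 : Continuous φ) (h2 : Function.Injective φ) (n : ℕ) (hn : N ≤ n) :
    S.Z (Eqv E ρ) Set.univ (n + 2) ≤ S.B (Eqv E ρ) Set.univ (n + 2) := by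
  refine S.slice_ind hA hG φ {K | IsClosed K} (fun K hK => ⟨hK.isCompact, h1.continuousOn,
    h2.injOn, fun i τ => hK.inter (isClosed_singleton.preimage
      ((continuous_apply i).comp h1))⟩) N _ isClosed_univ (fun i hi => ?_) n (Or.inl hn)
  have := i.2
  omega

theorem le_disc [CompactSpace M] [T2Space M] [FiniteDimensional K2 V] (hA : Act S H)
    (htr : ∀ a b, S.p a = S.p b → ∃ g : H, g • a = b) (hG : S.LG) {U : Set M} (hU : S.Good U)
    {a₀ : E} (ha₀ : S.p a₀ ∈ U) {D : Set M} (hD : D ⊆ U) (hDc : IsCompact D) {N : ℕ}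
    (φ : M → Fin N → ℝ) (h1 : ContinuousOn φ D) (h2 : Set.InjOn φ D) (h3 : Convex ℝ (φ '' D))
    (n : ℕ) : Le (S.Z (Eqv E ρ) D (n + 1)) (S.B (Eqv E ρ) D (n + 1)) (finrank K2 V) := by
  have pc : ∀ K, K ⊆ D → IsCompact K → Convex ℝ (φ '' K) → IsPreconnected K := by
    intro K k1 k2 k3
    have : CompactSpace K := isCompact_iff_compactSpace.1 k2
    have hc : Continuous (K.domRestrict φ) := (h1.mono k1).domRestrict
    have hi : Function.Injective (K.domRestrict φ) := (h2.mono k1).injective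
    have he := (hc.isClosedEmbedding hi).isInducing
    have := he.isPreconnected_image (s := Set.univ)
    rw [Set.image_univ, Set.range_domRestrict] at this
    have h5 := (this.1 k3.isPreconnected).image Subtype.val continuous_subtype_val.continuousOn
    rwa [Set.image_univ, Subtype.range_coe] at h5
  cases n with
  | zero =>
    refine Le.of_range (S.eps ρ U a₀) fun c hc => ?_
    obtain ⟨v, hv⟩ := S.h_zero hA htr hG hU ha₀ hD (pc D subset_rfl hDc h3) hc
    exact ⟨v, S.N_le_B hv⟩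
  | succ n =>
    refine Le.of_le (S.slice_ind hA hG φ {K | K ⊆ D ∧ IsCompact K ∧ Convex ℝ (φ '' K)} ?_ N D
      ⟨subset_rfl, hDc, h3⟩ (fun i hi => ?_) n (Or.inr ?_)) _
    · rintro K ⟨k1, k2, k3⟩
      refine ⟨k2, h1.mono k1, h2.mono k1, fun i τ => ⟨Set.inter_subset_left.trans k1, ?_, ?_⟩⟩
      · exact (((continuous_apply i).comp_continuousOn
          (h1.mono k1)).preimage_isClosed_of_isClosed k2.isClosed isClosed_singleton).isCompact
      · have : φ '' (K ∩ (fun z => φ z i) ⁻¹' {τ}) = φ '' K ∩ (fun v => v i) ⁻¹' {τ} :=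
          Set.image_inter_preimage φ K ((fun v => v i) ⁻¹' {τ})
        rw [this]
        exact k3.inter ((convex_singleton τ).linear_preimage (LinearMap.proj (R := ℝ) (φ := fun _ : Fin N => ℝ) i))
    · have := i.2
      omega
    · rintro K' ⟨k1, k2, k3⟩ K'' ⟨k4, -, -⟩ _ u hu
      obtain ⟨v, hv⟩ := S.h_zero hA htr hG hU ha₀ (k1.trans hD) (pc K' k1 k2 k3) hu
      exact ⟨_, S.eps_Z hA hU a₀ v (k4.trans hD), hv⟩

end Sys

end Pool.Agent.H816Z
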