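import Pool.Agent.H816Z.Local

set_option autoImplicit false

open Topology Filter Module

namespace Pool.Agent.H816Z

theorem Le.rel' {F F' X : Type} [AddCommGroup F] [Module K2 F] [AddCommGroup F'] [Module K2 F']
    [AddCommGroup X] [Module K2 X] {S B : Submodule K2 F} {S' B' : Submodule K2 F'} {m : ℕ}
    (T : Submodule K2 X) (α : X →ₗ[K2] F) (β : X →ₗ[K2] F')
    (h1 : ∀ c ∈ S, ∃ x ∈ T, α x = c ∧ β x ∈ S')
    (h2 : ∀ x ∈ T, α x ∈ S → β x ∈ B' → α x ∈ B) (h : Le S' B' m) : Le S B m := by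
  refine Le.rel (T.map (α.prod β)) ?_ ?_ h
  · intro c hc
    obtain ⟨x, hx, rfl, h3⟩ := h1 c hc
    exact ⟨β x, h3, x, hx, rfl⟩
  · rintro c hc u hu ⟨x, hx, h3⟩
    obtain ⟨rfl, rfl⟩ := Prod.mk.inj h3
    exact h2 x hx hc hu

variable {M E : Type} [TopologicalSpace M]

namespace Sys
variable (S : Sys M E)

/-- small convex discs inside good sets -/
def Charts : Prop := ∀ (z : M) (W : Set M), W ∈ 𝓝 z → ∃ U ⊆ W, S.Good U ∧
  ∃ D ∈ 𝓝 z, D ⊆ U ∧ IsCompact D ∧ ∃ (N : ℕ) (φ : M → Fin N → ℝ),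
    ContinuousOn φ D ∧ Set.InjOn φ D ∧ Convex ℝ (φ '' D)

theorem Charts.lg {S : Sys M E} (h : S.Charts) : S.LG := by
  intro z W hW
  obtain ⟨U, h1, h2, D, h3, h4, -⟩ := h z W hW
  exact ⟨U, h1, h4 (mem_of_mem_nhds h3), h2⟩

/-- uniform rank bound -/
def RB (G : Type) [Group G] [MulAction G E] (K L : Set M) (n C : ℕ) : Prop :=
  ∀ (V : Type) [AddCommGroup V] [Module K2 V] [FiniteDimensional K2 V]
    (ρ : Representation K2 G V), Le (S.Z (Eqv E ρ) L n) (S.B (Eqv E ρ) K n) (C * finrank K2 V)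

theorem le_union [NormalSpace M] {V : Type} [AddCommGroup V] [Module K2 V]
    {G : Type} [Group G] [MulAction G E] {ρ : Representation K2 G V} (hA : Act S G)
    {L K₁ K₂ J₁ J₂ : Set M} (h1 : IsClosed J₁) (h2 : IsClosed J₂) (s1 : J₁ ⊆ K₁) (s2 : J₂ ⊆ K₂)
    {n m₁ m₂ m₃ : ℕ} (a1 : Le (S.Z (Eqv E ρ) L (n + 1)) (S.B (Eqv E ρ) K₁ (n + 1)) m₁)
    (a2 : Le (S.Z (Eqv E ρ) L (n + 1)) (S.B (Eqv E ρ) K₂ (n + 1)) m₂)
    (a3 : Le (S.Z (Eqv E ρ) (K₁ ∩ K₂) n) (S.B (Eqv E ρ) (J₁ ∩ J₂) n) m₃) :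
    Le (S.Z (Eqv E ρ) L (n + 1)) (S.B (Eqv E ρ) (J₁ ∪ J₂) (n + 1)) (m₁ + m₂ + m₃) := by
  refine (a1.inf a2).step ?_
  let F := List E → V
  let π₁ : F × F × F →ₗ[K2] F := LinearMap.fst _ _ _
  let π₂ : F × F × F →ₗ[K2] F := (LinearMap.fst _ _ _).comp (LinearMap.snd _ _ _)
  let π₃ : F × F × F →ₗ[K2] F := (LinearMap.snd _ _ _).comp (LinearMap.snd _ _ _)
  refine Le.rel' ((Eqv E ρ).comap π₂ ⊓ (Eqv E ρ).comap π₃ ⊓
    (S.N V K₁ (n + 1)).comap (π₁ - (Dl E V).comp π₂) ⊓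
    (S.N V K₂ (n + 1)).comap (π₁ - (Dl E V).comp π₃)) π₁ (π₂ - π₃) ?_ ?_ a3
  · rintro c ⟨-, ⟨h₁, e1, b1⟩, ⟨h₂, e2, b2⟩⟩
    exact ⟨(c, h₁, h₂), ⟨⟨⟨e1, e2⟩, b1⟩, b2⟩, rfl, S.sub_mem_Z e1 e2 b1 b2⟩
  · rintro ⟨c, h₁, h₂⟩ ⟨⟨⟨e1, e2⟩, b1⟩, b2⟩ - ⟨g, eg, b3⟩
    exact S.glue hA h1 h2 e1 e2 (Eqv_D eg) (S.N_mono s1 b1) (S.N_mono s2 b2) b3
      (S.D_mem_Z eg).2

theorem rank_ind [CompactSpace M] [T2Space M] {G : Type} [Group G] [MulAction G E]
    (hA : Act S G) (htr : ∀ a b, S.p a = S.p b → ∃ g : G, g • a = b)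
    (hs : Function.Surjective S.p) (hC : S.Charts) (n : ℕ) :
    ∀ K L : Set M, IsClosed K → K ⊆ interior L → ∃ C, S.RB G K L n C := by
  induction n with
  | zero =>
    intro K L _ _
    refine ⟨0, fun V _ _ _ ρ => Le.of_le (fun c hc => S.N_le_B fun z _ => ?_) _⟩
    refine ⟨Set.univ, univ_mem, fun l hl _ => ?_⟩
    rw [List.length_eq_zero_iff.1 hl]
    exact hc.1.1
  | succ n ih =>
    intro K L hK hKL
    have key : ∃ K', IsClosed K' ∧ closure K ⊆ interior K' ∧ ∃ C, S.RB G K' L (n + 1) C := by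
      refine hK.isCompact.induction_on
        (p := fun K => ∃ K', IsClosed K' ∧ closure K ⊆ interior K' ∧
          ∃ C, S.RB G K' L (n + 1) C) ?_ ?_ ?_ ?_
      · exact ⟨∅, isClosed_empty, by simp, 0, fun V _ _ _ ρ =>
          Le.of_le (fun c _ => S.N_le_B fun z hz => hz.elim) _⟩
      · rintro s t hst ⟨K', h1, h2, h3⟩
        exact ⟨K', h1, (closure_mono hst).trans h2, h3⟩
      · rintro s t ⟨K₁, -, a2, C₁, a3⟩ ⟨K₂, -, b2, C₂, b3⟩
        obtain ⟨u₁, u1, u2, u3⟩ := normal_exists_closure_subset isClosed_closure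
          isOpen_interior a2
        obtain ⟨u₂, v1, v2, v3⟩ := normal_exists_closure_subset isClosed_closure
          isOpen_interior b2
        obtain ⟨C₃, c3⟩ := ih (closure u₁ ∩ closure u₂) (K₁ ∩ K₂)
          (isClosed_closure.inter isClosed_closure) (by
            rw [interior_inter]; exact Set.inter_subset_inter u3 v3)
        refine ⟨closure u₁ ∪ closure u₂, isClosed_closure.union isClosed_closure, ?_,
          C₁ + C₂ + C₃, fun V _ _ _ ρ => ?_⟩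
        · rw [closure_union]
          exact (Set.union_subset_union u2 v2).trans (interior_maximal
            (Set.union_subset_union subset_closure subset_closure) (u1.union v1))
        · rw [add_mul, add_mul]
          exact S.le_union hA isClosed_closure isClosed_closure (u3.trans interior_subset)
            (v3.trans interior_subset) (a3 V ρ) (b3 V ρ) (c3 V ρ)
      · intro z hz
        obtain ⟨U, h1, h2, D, h3, h4, h5, N, φ, h6, h7, h8⟩ :=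
          hC z L (mem_interior_iff_mem_nhds.1 (hKL hz))
        obtain ⟨t, t1, t2, t3⟩ := exists_mem_nhds_isClosed_subset (interior_mem_nhds.2 h3)
        obtain ⟨a₀, ha₀⟩ := hs z
        refine ⟨t, mem_nhdsWithin_of_mem_nhds t1, D, h5.isClosed, by rwa [t2.closure_eq], 1,
          fun V _ _ _ ρ => ?_⟩
        rw [one_mul]
        exact (S.le_disc hA htr hC.lg h2 (a₀ := a₀) (by
          rw [ha₀]; exact h4 (mem_of_mem_nhds h3)) h4 h5 φ h6 h7 h8 n).mono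
          (S.Z_mono (h4.trans h1)) fun _ _ h => h
    obtain ⟨K', -, h2, C, h3⟩ := key
    refine ⟨C, fun V _ _ _ ρ => (h3 V ρ).mono le_rfl fun c _ hc => S.B_mono ?_ hc⟩
    exact subset_closure.trans (h2.trans interior_subset)

end Sys

end Pool.Agent.H816Z
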