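import Pool.Agent.H816Z.Rank

set_option autoImplicit false

open Topology Filter Module

namespace Pool.Agent.H816Z

variable {M E : Type} [TopologicalSpace M]

/-- functions on lists invariant under a set of group elements -/
def InvS (E : Type) {G : Type} [Group G] [MulAction G E] (A : Set G) :
    Submodule K2 (List E → K2) where
  carrier := {c | c [] = 0 ∧ ∀ g ∈ A, ∀ l : List E, c (l.map (g • ·)) = c l}
  add_mem' := by
    rintro a b ⟨h1, h2⟩ ⟨h3, h4⟩
    exact ⟨by simp [h1, h3], fun g hg l => by simp [h2 g hg, h4 g hg]⟩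
  zero_mem' := ⟨rfl, fun g _ l => rfl⟩
  smul_mem' := by
    rintro a b ⟨h1, h2⟩
    exact ⟨by simp [h1], fun g hg l => by simp [h2 g hg]⟩

/-- permutation representation on functions -/
def permRep (G X : Type) [Group G] [MulAction G X] : Representation K2 G (X → K2) where
  toFun g := LinearMap.funLeft K2 K2 (g⁻¹ • ·)
  map_one' := by ext w x; simp
  map_mul' g h := by ext w x; simp [mul_smul]

theorem permRep_apply {G X : Type} [Group G] [MulAction G X] (g : G) (w : X → K2) (x : X) :
    permRep G X g w x = w (g⁻¹ • x) := rfl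

theorem D_eval {ι V : Type} [AddCommGroup V] (c : List E → ι → V) (l : List E) (i : ι) :
    D c l i = D (fun l => c l i) l :=
  (D_comp (Pi.evalAddMonoidHom (fun _ : ι => V) i) c l).symm

theorem map_smul_smul {G : Type} [Group G] [MulAction G E] (g h : G) (l : List E) :
    (l.map (h • ·)).map (g • ·) = l.map ((g * h) • ·) := by
  rw [List.map_map]; congr 1; funext x; simp [mul_smul]

theorem map_one_smul {G : Type} [Group G] [MulAction G E] (l : List E) :
    l.map ((1 : G) • ·) = l := by simp

/-- the function on lists supported on singletons -/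
def sing (E V : Type) [AddCommGroup V] [Module K2 V] : (E → V) →ₗ[K2] (List E → V) where
  toFun h l := match l with
    | [x] => h x
    | _ => 0
  map_add' v w := by
    funext l
    match l with
    | [] => simp
    | [x] => simp
    | _ :: _ :: _ => simp
  map_smul' a v := by
    funext l
    match l with
    | [] => simp
    | [x] => simp
    | _ :: _ :: _ => simp

theorem sing_one {V : Type} [AddCommGroup V] [Module K2 V] (h : E → V) (x : E) :
    sing E V h [x] = h x := rfl

namespace Sys
variable (S : Sys M E)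

theorem small_pair {U : Set M} {a b : E} (h : S.R U a b) : S.small U [a, b] := by
  intro x hx x' hx'
  simp only [List.mem_cons, List.not_mem_nil, or_false] at hx hx'
  rcases hx with rfl | rfl <;> rcases hx' with rfl | rfl
  exacts [S.trans h (S.symm h), h, S.symm h, S.trans (S.symm h) h]

theorem shap_up {G : Type} [Group G] [MulAction G E] (hA : Act S G) (H : Subgroup G)
    {n m : ℕ} (h : Le (S.Z (Eqv E (permRep G (G ⧸ H))) Set.univ n)
      (S.B (Eqv E (permRep G (G ⧸ H))) Set.univ n) m) :
    Le (S.Z (InvS E (H : Set G)) Set.univ n) (S.B (InvS E (H : Set G)) Set.univ n) m := by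
  let up : (List E → K2) →ₗ[K2] (List E → (G ⧸ H) → K2) :=
    { toFun := fun c l q => c (l.map (q.out⁻¹ • ·))
      map_add' := fun _ _ => rfl
      map_smul' := fun _ _ => rfl }
  have hup : ∀ c ∈ InvS E (H : Set G), ∀ l (g : G), up c l (g : G ⧸ H) = c (l.map (g⁻¹ • ·)) := by
    intro c hc l g
    obtain ⟨h, hh⟩ := QuotientGroup.mk_out_eq_mul H g
    change c (l.map (((g : G ⧸ H).out)⁻¹ • ·)) = _
    rw [hh, mul_inv_rev, ← map_smul_smul, hc.2 _ (H.inv_mem h.2)]
  refine Le.map up ?_ ?_ h
  · rintro c ⟨hc, hN⟩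
    refine ⟨⟨funext fun q => hc.1, fun g' l => funext fun q => ?_⟩, fun z hz => ?_⟩
    · induction q using QuotientGroup.induction_on with
      | H g =>
        rw [permRep_apply, MulAction.Quotient.smul_mk, hup c hc, hup c hc, map_smul_smul]
        simp
    · obtain ⟨U, hU, h0⟩ := hN z hz
      refine ⟨U, hU, fun l hl hs => funext fun q => ?_⟩
      rw [Dl_apply, D_eval]
      exact (D_map _ c l).trans (h0 _ (by simpa using hl) (S.small_smul hA _ hs))
  · rintro c ⟨hc, -⟩ ⟨k, hk, hN⟩
    refine ⟨fun l => k l ((1 : G) : G ⧸ H), ⟨congrFun hk.1 _, fun g hg l => ?_⟩, fun z hz => ?_⟩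
    · change k (l.map (g • ·)) ((1 : G) : G ⧸ H) = k l _
      rw [hk.2 g l, permRep_apply, MulAction.Quotient.smul_mk]
      congr 1
      rw [QuotientGroup.eq]
      simpa using hg
    · obtain ⟨U, hU, h0⟩ := hN z hz
      refine ⟨U, hU, fun l hl hs => ?_⟩
      have := congrFun (h0 l hl hs) ((1 : G) : G ⧸ H)
      rw [Pi.sub_apply, Pi.sub_apply, hup c hc, D_eval, inv_one, map_one_smul] at this
      exact this

theorem transport {G : Type} [Group G] [MulAction G E] (Φ : E ≃ E) (ψ : G → G)
    (hΦ : ∀ g a, Φ (g • a) = ψ g • Φ a)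
    (hN : ∀ (n : ℕ) (c : List E → K2), S.Null Set.univ n c ↔
      S.Null Set.univ n (fun l => c (l.map Φ))) (A : Set G) {n m : ℕ}
    (h : Le (S.Z (InvS E A) Set.univ n) (S.B (InvS E A) Set.univ n) m) :
    Le (S.Z (InvS E (ψ '' A)) Set.univ n) (S.B (InvS E (ψ '' A)) Set.univ n) m := by
  have e1 : ∀ g (l : List E), (l.map (g • ·)).map Φ = (l.map Φ).map (ψ g • ·) := by
    intro g l
    rw [List.map_map, List.map_map]; congr 1; funext x; exact hΦ g x
  have e2 : ∀ l : List E, (l.map Φ).map Φ.symm = l := by intro l; simp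
  have e3 : ∀ l : List E, (l.map Φ.symm).map Φ = l := by intro l; simp
  refine Le.map (LinearMap.funLeft K2 K2 (List.map Φ)) ?_ ?_ h
  · rintro c ⟨hc, h1⟩
    refine ⟨⟨hc.1, fun g hg l => ?_⟩, ?_⟩
    · change c ((l.map (g • ·)).map Φ) = c (l.map Φ)
      rw [e1, hc.2 _ ⟨g, hg, rfl⟩]
    · have := (hN _ _).1 h1
      change S.Null Set.univ (n + 1) (D fun l => c (l.map Φ))
      rw [show (D fun l => c (l.map Φ)) = fun l => D c (l.map Φ) from funext (D_map Φ c)]
      exact this
  · rintro c - ⟨k, hk, h1⟩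
    refine ⟨fun l => k (l.map Φ.symm), ⟨hk.1, ?_⟩, (hN _ _).2 ?_⟩
    · rintro _ ⟨g, hg, rfl⟩ l
      change k ((l.map (ψ g • ·)).map Φ.symm) = k (l.map Φ.symm)
      conv_lhs => rw [← e3 l, ← e1, e2]
      exact hk.2 g hg _
    · have : (fun l : List E => (c - D fun l => k (l.map Φ.symm)) (l.map Φ)) =
          LinearMap.funLeft K2 K2 (List.map Φ) c - D k := by
        funext l
        rw [Pi.sub_apply, Pi.sub_apply, D_map, e2]; rfl
      rw [this]
      exact h1

theorem transport_iter {G : Type} [Group G] [MulAction G E] (Φ : E ≃ E) (ψ : G → G)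
    (hΦ : ∀ g a, Φ (g • a) = ψ g • Φ a)
    (hN : ∀ (n : ℕ) (c : List E → K2), S.Null Set.univ n c ↔
      S.Null Set.univ n (fun l => c (l.map Φ))) (A : Set G) {n m : ℕ}
    (h : Le (S.Z (InvS E A) Set.univ n) (S.B (InvS E A) Set.univ n) m) (k : ℕ) :
    Le (S.Z (InvS E (ψ^[k] '' A)) Set.univ n) (S.B (InvS E (ψ^[k] '' A)) Set.univ n) m := by
  induction k with
  | zero => simpa using h
  | succ k ih =>
    rw [Function.iterate_succ', Set.image_comp]
    exact S.transport Φ ψ hΦ hN _ ih

/-- locally constant functions on the total space are constant -/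
def P4 : Prop := ∀ (V : Type) (w : E → V),
  (∀ z : M, ∃ U ∈ 𝓝 z, ∀ a b, S.R U a b → w a = w b) → ∀ a b, w a = w b

/-- local cocycles on the total space have primitives -/
def P5 : Prop := ∀ c : E → E → ZMod 2,
  (∀ z : M, ∃ U ∈ 𝓝 z, ∀ a b d, S.R U a b → S.R U b d → c a b + c b d = c a d) →
  ∃ h : E → ZMod 2, ∀ z : M, ∃ U ∈ 𝓝 z, ∀ a b, S.R U a b → h b = h a + c a b

theorem le_one {G : Type} [Group G] [MulAction G E] (hA : Act S G) (h4 : S.P4) (h5 : S.P5)
    (a₀ : E) (H : Subgroup G) (T : Finset H)
    (hT : ∀ χ : H →* Multiplicative (ZMod 2), (∀ x ∈ T, χ x = 1) → χ = 1) :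
    Le (S.Z (InvS E (H : Set G)) Set.univ 2) (S.B (InvS E (H : Set G)) Set.univ 2) T.card := by
  have tb := Le.top_bot (F := T → K2)
  rw [finrank_fintype_fun_eq_card, Fintype.card_coe] at tb
  let β : (List E → K2) × (E → K2) →ₗ[K2] (T → K2) :=
    { toFun := fun x t => x.2 (((t : H) : G) • a₀) + x.2 a₀
      map_add' := fun x y => by funext t; simp; abel
      map_smul' := fun a x => by funext t; simp; ring }
  refine Le.rel' ((S.N K2 Set.univ 2).comap (LinearMap.fst _ _ _ -
    ((Dl E K2).comp (sing E K2)).comp (LinearMap.snd _ _ _))) (LinearMap.fst _ _ _) β ?_ ?_ tb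
  · rintro c ⟨hc, hN⟩
    obtain ⟨h, hh⟩ := h5 (fun a b => c [a, b]) (fun z => by
      obtain ⟨U, hU, h0⟩ := hN z trivial
      refine ⟨U, hU, fun a b d h1 h2 => ?_⟩
      have := h0 [a, b, d] rfl (by
        have key : ∀ x ∈ [a, b, d], S.R U x b := by
          intro x hx
          simp only [List.mem_cons, List.not_mem_nil, or_false] at hx
          rcases hx with rfl | rfl | rfl
          exacts [h1, S.trans (S.symm h1) h1, S.symm h2]
        exact fun x hx y hy => S.trans (key x hx) (S.symm (key y hy)))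
      rw [Dl_apply, D_triple] at this
      have h3 := two_self (c [a, d])
      linear_combination this - h3)
    refine ⟨(c, h), fun z _ => ?_, rfl, trivial⟩
    obtain ⟨U, hU, h0⟩ := hh z
    refine ⟨U, hU, fun l hl hs => ?_⟩
    obtain ⟨x, y, rfl⟩ := List.length_eq_two.1 hl
    change c [x, y] - D (sing E K2 h) [x, y] = 0
    rw [D_pair, sing_one, sing_one, h0 x y (hs x (by simp) y (by simp))]
    have h3 := two_self (h x)
    linear_combination -h3
  · rintro ⟨c, h⟩ hN ⟨hc, -⟩ hβ
    have loc : ∀ z : M, ∃ U ∈ 𝓝 z, ∀ a b, S.R U a b → c [a, b] = h b + h a := by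
      intro z
      obtain ⟨U, hU, h0⟩ := hN z trivial
      refine ⟨U, hU, fun a b hab => ?_⟩
      have : c [a, b] - D (sing E K2 h) [a, b] = 0 := h0 [a, b] rfl (S.small_pair hab)
      rw [D_pair, sing_one, sing_one] at this
      exact sub_eq_zero.1 this
    have con : ∀ g ∈ H, ∀ a, h (g • a) + h a = h (g • a₀) + h a₀ := by
      intro g hg a
      refine h4 _ (fun a => h (g • a) + h a) (fun z => ?_) a a₀
      obtain ⟨U, hU, h0⟩ := loc z
      refine ⟨U, hU, fun a b hab => ?_⟩
      have e1 := h0 a b hab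
      have e2 := h0 _ _ (hA.R_smul g U _ _ hab)
      have e3 : c [g • a, g • b] = c [a, b] := hc.2 g hg [a, b]
      have h3 := two_self (h (g • b))
      have h6 := two_self (h a)
      linear_combination e3 - e2 + e1 - h3 + h6
    let χ : H →* Multiplicative (ZMod 2) :=
      { toFun := fun g => Multiplicative.ofAdd (h ((g : G) • a₀) + h a₀)
        map_one' := by simp [two_self (h a₀)]
        map_mul' := fun g g' => by
          rw [← ofAdd_add, ← con g g.2 ((g' : G) • a₀), Subgroup.coe_mul, mul_smul]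
          congr 1
          have h3 := two_self (h ((g' : G) • a₀))
          linear_combination -h3 }
    have hχ := hT χ (fun x hx => by
      have : β (c, h) = 0 := hβ
      have h2 := congrFun this ⟨x, hx⟩
      exact congrArg Multiplicative.ofAdd h2)
    refine ⟨sing E K2 h, ⟨rfl, fun g hg l => ?_⟩, hN⟩
    match l with
    | [] => rfl
    | [x] =>
      have h1 : h (g • a₀) + h a₀ = 0 :=
        congrArg Multiplicative.toAdd (DFunLike.congr_fun hχ ⟨g, hg⟩)
      have h2 := con g hg x
      have h3 := two_self (h x)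
      change h (g • x) = h x
      linear_combination h2 + h1 - h3
    | _ :: _ :: _ => rfl

end Sys

end Pool.Agent.H816Z
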